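import Pool.Agent.TJ4.St
import Mathlib.NumberTheory.Padics.Complex

/-!
# Project TJ4, module EXV (helper9): existence of an absolute value over `p`
-/

open Polynomial

namespace Pool.Agent.TJ4

open Pool.Agent.TJ2 Pool.Agent.TJ3

noncomputable section

namespace EXV_aux

/-- an embedding of the algebraic numbers -/
lemma emb (K : Type) [Field K] [IsAlgClosed K] [CharZero K] : Nonempty (Qb →+* K) := by
  have h := AlgebraicClosure.instIsAlgClosure ℚ
  have e : (AlgebraicClosure.instAlgebra ℚ : Algebra ℚ (AlgebraicClosure ℚ)) =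
    DivisionRing.toRatAlgebra := Subsingleton.elim _ _
  have h1 : IsAlgClosure ℚ Qb := e ▸ h
  have h2 : Algebra.IsAlgebraic ℚ Qb := IsAlgClosure.isAlgebraic
  exact ⟨((IsAlgClosed.lift : Qb →ₐ[ℚ] K) : Qb →+* K)⟩

end EXV_aux

theorem t_EXV : S_EXV := by
  intro q hq
  have hq1 : q ≠ 1 := hq.one_lt.ne'
  have : Fact (q.minFac).Prime := ⟨Nat.minFac_prime hq1⟩
  obtain ⟨ι⟩ := EXV_aux.emb (PadicAlgCl q.minFac)
  refine ⟨{ toFun := fun x => ‖ι x‖
            map_mul' := fun x y => by simp
            nonneg' := fun x => norm_nonneg _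
            eq_zero' := fun x => by simp
            add_le' := fun x y => by
              rw [map_add]; exact norm_add_le _ _ }, ?_, ?_⟩
  · intro x y
    change ‖ι (x + y)‖ ≤ max ‖ι x‖ ‖ι y‖
    rw [map_add]
    exact PadicAlgCl.isNonarchimedean q.minFac (ι x) (ι y)
  · change ‖ι ((q.minFac : ℕ) : Qb)‖ < 1
    rw [map_natCast]
    have h1 : ((q.minFac : ℕ) : PadicAlgCl q.minFac) =
        algebraMap ℚ_[q.minFac] (PadicAlgCl q.minFac) ((q.minFac : ℕ) : ℚ_[q.minFac]) := by
      rw [map_natCast]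
    rw [h1]
    have h2 := PadicAlgCl.norm_extends q.minFac ((q.minFac : ℕ) : ℚ_[q.minFac])
    rw [h2]
    exact Padic.norm_p_lt_one

end

end Pool.Agent.TJ4
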