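import Pool.Agent.TJ4.St

/-!
# LOC: the valuation ring of `v` is the localisation of the ring of algebraic integers (helper92)

Induction on the degree of a polynomial with algebraic integer coefficients, one of them of value `1`,
which vanishes at `u`: if the leading coefficient `c` has value `< 1`, replace
`c u ^ (n + 1)` by `(c u) u ^ n`.
-/

set_option autoImplicit false

open Polynomial IntermediateField

namespace Pool.Agent.TJ4

open Pool.Agent.TJ2 Pool.Agent.TJ3

namespace LOC_aux

/-- the valuation ring of `v` -/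
def vr (v : AbsoluteValue Qb ℝ) (hv : IsNonarchimedean v) : ValuationSubring Qb where
  carrier := {y | v y ≤ 1}
  mul_mem' := by
    intro a b ha hb
    show v (a * b) ≤ 1
    rw [map_mul]
    exact mul_le_one₀ ha (v.nonneg b) hb
  one_mem' := by
    show v 1 ≤ 1
    rw [map_one]
  add_mem' := by
    intro a b ha hb
    exact (hv a b).trans (max_le ha hb)
  zero_mem' := by
    show v 0 ≤ 1
    rw [map_zero]
    exact zero_le_one
  neg_mem' := by
    intro a ha
    show v (-a) ≤ 1
    rw [v.map_neg]
    exact ha
  mem_or_inv_mem' := by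
    intro a
    by_cases h : v a ≤ 1
    · exact Or.inl h
    · refine Or.inr ?_
      show v a⁻¹ ≤ 1
      rw [map_inv₀]
      exact inv_le_one_of_one_le₀ (le_of_lt (not_le.mp h))

/-- algebraic integers have value at most `1` -/
theorem int_le (v : AbsoluteValue Qb ℝ) (hv : IsNonarchimedean v) (x : Qb) (hx : IsIntegral ℤ x) :
    v x ≤ 1 := by
  have h1 : IsIntegral (vr v hv) x := hx.tower_top
  obtain ⟨y, hy⟩ := (IsIntegrallyClosed.isIntegral_iff (R := vr v hv) (K := Qb)).1 h1
  have h2 : (y : Qb) ∈ vr v hv := y.2
  have h3 : (y : Qb) = x := hy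
  rw [h3] at h2
  exact h2

/-- a value `1` plus a value less than `1` -/
theorem add_one (v : AbsoluteValue Qb ℝ) (hv : IsNonarchimedean v) (a b : Qb) (ha : v a = 1)
    (hb : v b < 1) : v (a + b) = 1 := by
  apply le_antisymm
  · exact (hv a b).trans (max_le ha.le hb.le)
  · have h1 := hv (a + b) (-b)
    rw [add_neg_cancel_right, ha, v.map_neg] at h1
    rcases le_max_iff.1 h1 with h2 | h2
    · exact h2
    · exact absurd h2 (not_le.mpr hb)

theorem ind (v : AbsoluteValue Qb ℝ) (hv : IsNonarchimedean v) (u : Qb) (hu : v u ≤ 1) :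
    ∀ (n : ℕ) (f : Zb[X]), f.natDegree ≤ n → aeval u f = 0 →
      (∃ k, v (f.coeff k : Qb) = 1) → ∃ s t : Zb, v (s : Qb) = 1 ∧ (s : Qb) * u = t := by
  intro n
  induction n with
  | zero =>
    intro f hf h0 hk
    obtain ⟨k, hk⟩ := hk
    rw [eq_C_of_natDegree_eq_zero (Nat.le_zero.mp hf), aeval_C] at h0
    have h1 : ((f.coeff 0 : Zb) : Qb) = 0 := h0
    rcases Nat.eq_zero_or_pos k with hk0 | hk0
    · rw [hk0, h1, map_zero] at hk
      exact absurd hk zero_ne_one
    · rw [coeff_eq_zero_of_natDegree_lt (by omega)] at hk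
      simp at hk
  | succ n ih =>
    intro f hf h0 hk
    by_cases hfn : f.natDegree ≤ n
    · exact ih f hfn h0 hk
    have hdeg : f.natDegree = n + 1 := by omega
    set c : Zb := f.coeff (n + 1) with hc
    have hcl : f.leadingCoeff = c := by rw [leadingCoeff, hdeg]
    have hint : IsIntegral ℤ ((c : Qb) * u) := by
      have h1 := isIntegral_leadingCoeff_smul f u h0
      rw [hcl] at h1
      have h2 : IsIntegral ℤ (c • u) := isIntegral_trans (R := ℤ) (A := Zb) _ h1
      exact h2
    let t : Zb := ⟨(c : Qb) * u, hint⟩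
    have ht : (t : Qb) = (c : Qb) * u := rfl
    by_cases hc1 : v (c : Qb) = 1
    · exact ⟨c, t, hc1, ht.symm⟩
    have hclt : v (c : Qb) < 1 := lt_of_le_of_ne (int_le v hv _ c.2) hc1
    have htlt : v (t : Qb) < 1 := by
      rw [ht, map_mul]
      calc v (c : Qb) * v u ≤ v (c : Qb) * 1 := mul_le_mul_of_nonneg_left hu (v.nonneg _)
        _ < 1 := by rw [mul_one]; exact hclt
    let g : Zb[X] := f - C c * X ^ (n + 1) + C t * X ^ n
    have hg : ∀ N, g.coeff N = f.coeff N - (if N = n + 1 then c else 0) +
        (if N = n then t else 0) := by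
      intro N
      simp only [g, coeff_add, coeff_sub, coeff_C_mul, coeff_X_pow, mul_ite, mul_one, mul_zero]
    refine ih g ?_ ?_ ?_
    · rw [natDegree_le_iff_coeff_eq_zero]
      intro N hN
      rw [hg]
      rcases Nat.lt_or_ge (n + 1) N with h1 | h1
      · rw [coeff_eq_zero_of_natDegree_lt (by omega), if_neg (by omega), if_neg (by omega)]
        simp
      · have h2 : N = n + 1 := by omega
        rw [h2, if_pos rfl, if_neg (by omega), ← hc]
        simp
    · have h1 : aeval u g = aeval u f - (c : Qb) * u ^ (n + 1) + (t : Qb) * u ^ n := by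
        simp only [g, map_add, map_sub, map_mul, map_pow, aeval_C, aeval_X]
        rfl
      rw [h1, h0, ht]
      ring
    · obtain ⟨k, hk⟩ := hk
      have hk1 : k ≤ n + 1 := by
        by_contra hcon
        rw [coeff_eq_zero_of_natDegree_lt (by omega)] at hk
        simp at hk
      have hk2 : k ≠ n + 1 := by
        rintro rfl
        exact hc1 hk
      rcases Nat.lt_or_ge k n with h1 | h1
      · refine ⟨k, ?_⟩
        rw [hg, if_neg hk2, if_neg (by omega)]
        simpa using hk
      · have h2 : k = n := by omega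
        refine ⟨n, ?_⟩
        rw [hg, if_neg (by omega), if_pos rfl]
        rw [h2] at hk
        have h3 : (((f.coeff n - 0 + t : Zb)) : Qb) = ((f.coeff n : Zb) : Qb) + (t : Qb) := by
          push_cast
          ring
        rw [h3]
        exact add_one v hv _ _ hk htlt

theorem isAlg : Algebra.IsAlgebraic ℚ Qb := by
  have h := AlgebraicClosure.isAlgebraic ℚ
  have e : (AlgebraicClosure.instAlgebra ℚ : Algebra ℚ (AlgebraicClosure ℚ)) =
    DivisionRing.toRatAlgebra := Subsingleton.elim _ _
  exact e ▸ h

end LOC_aux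

open LOC_aux in
theorem t_LOC : S_LOC := by
  intro v hv u hu
  have hal : IsAlgebraic ℤ u :=
    (IsFractionRing.isAlgebraic_iff ℤ ℚ Qb).2 (isAlg.isAlgebraic u)
  obtain ⟨f, hf0, hf⟩ := hal
  have hP : aeval u f.primPart = 0 := aeval_primPart_eq_zero hf0 hf
  have hPr : f.primPart.IsPrimitive := isPrimitive_primPart f
  refine ind v hv u hu _ (f.primPart.map (algebraMap ℤ Zb)) le_rfl ?_ ?_
  · rw [aeval_map_algebraMap]
    exact hP
  · by_contra hcon
    push Not at hcon
    have hle : ∀ m : ℤ, v ((m : ℤ) : Qb) ≤ 1 := fun m =>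
      int_le v hv _ (isIntegral_algebraMap (R := ℤ) (A := Qb) (x := m))
    have hlt : ∀ k, v ((f.primPart.coeff k : ℤ) : Qb) < 1 := by
      intro k
      refine lt_of_le_of_ne (hle _) ?_
      have h1 := hcon k
      rw [coeff_map] at h1
      exact h1
    -- the ideal of the integers with value less than 1
    let I : Ideal ℤ :=
      { carrier := {m | v ((m : ℤ) : Qb) < 1}
        add_mem' := by
          intro a b ha hb
          show v (((a + b : ℤ)) : Qb) < 1
          push_cast
          exact lt_of_le_of_lt (hv _ _) (max_lt ha hb)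
        zero_mem' := by
          show v (((0 : ℤ)) : Qb) < 1
          rw [Int.cast_zero, map_zero]
          exact one_pos
        smul_mem' := by
          intro a b hb
          show v (((a * b : ℤ)) : Qb) < 1
          push_cast
          rw [map_mul]
          calc v (a : Qb) * v (b : Qb) ≤ 1 * v (b : Qb) :=
                mul_le_mul_of_nonneg_right (hle a) (v.nonneg _)
            _ < 1 := by rw [one_mul]; exact hb }
    obtain ⟨d, hd⟩ := (IsPrincipalIdealRing.principal I).principal
    have hdI : d ∈ I := by
      rw [hd]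
      exact Submodule.mem_span_singleton_self d
    have hdiv : ∀ k, d ∣ f.primPart.coeff k := by
      intro k
      have h1 : f.primPart.coeff k ∈ I := hlt k
      rw [hd] at h1
      exact Ideal.mem_span_singleton.1 h1
    have hun : IsUnit d := hPr d (C_dvd_iff_dvd_coeff d _ |>.2 hdiv)
    have hd1 : v ((d : ℤ) : Qb) < 1 := hdI
    rcases Int.isUnit_iff.1 hun with h1 | h1
    · rw [h1] at hd1
      simp at hd1
    · rw [h1] at hd1
      simp at hd1

end Pool.Agent.TJ4
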