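import Pool.Agent.TJ4.St
import Pool.Agent.TJ2.OMB

/-!
# SLP: basic facts on the slope vectors
-/

set_option autoImplicit false

open Polynomial IntermediateField

namespace Pool.Agent.TJ4

open Pool.Agent.TJ2 Pool.Agent.TJ3

noncomputable section

namespace SLP_aux

lemma sum_le {v : AbsoluteValue Qb ℝ} (hv : IsNonarchimedean v) {C : ℝ} (hC : 0 ≤ C) {ι : Type}
    (s : Finset ι) (f : ι → Qb) (hf : ∀ i ∈ s, v (f i) ≤ C) : v (∑ i ∈ s, f i) ≤ C := by
  classical
  induction s using Finset.induction_on with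
  | empty => simpa using hC
  | insert a s ha ih =>
    rw [Finset.sum_insert ha]
    refine (hv _ _).trans (max_le (hf a (Finset.mem_insert_self _ _)) (ih fun i hi => ?_))
    exact hf i (Finset.mem_insert_of_mem hi)

lemma nat_le {v : AbsoluteValue Qb ℝ} (hv : IsNonarchimedean v) (n : ℕ) : v (n : Qb) ≤ 1 := by
  induction n with
  | zero => simp
  | succ n ih =>
    rw [Nat.cast_succ]
    refine (hv _ _).trans (max_le ih ?_)
    rw [map_one]

lemma int_le {v : AbsoluteValue Qb ℝ} (hv : IsNonarchimedean v) (n : ℤ) : v (n : Qb) ≤ 1 := by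
  obtain ⟨m, rfl | rfl⟩ := n.eq_nat_or_neg
  · rw [Int.cast_natCast]
    exact nat_le hv m
  · rw [Int.cast_neg, Int.cast_natCast, AbsoluteValue.map_neg]
    exact nat_le hv m

lemma integral_le {v : AbsoluteValue Qb ℝ} (hv : IsNonarchimedean v) {x : Qb}
    (hx : IsIntegral ℤ x) : v x ≤ 1 := by
  obtain ⟨f, hf, hfx⟩ := hx
  by_contra hlt
  push Not at hlt
  have hn : f.natDegree ≠ 0 := by
    intro h0
    have h1 : f = 1 := Polynomial.eq_one_of_monic_natDegree_zero hf h0
    rw [h1, Polynomial.eval₂_one] at hfx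
    exact one_ne_zero hfx
  have h1 : x ^ f.natDegree = - ∑ i ∈ Finset.range f.natDegree, (f.coeff i : Qb) * x ^ i := by
    rw [Polynomial.eval₂_eq_sum_range, Finset.sum_range_succ, hf.coeff_natDegree, map_one,
      one_mul] at hfx
    rw [eq_neg_iff_add_eq_zero, add_comm]
    exact hfx
  have h2 : v (x ^ f.natDegree) ≤ v x ^ (f.natDegree - 1) := by
    rw [h1, AbsoluteValue.map_neg]
    refine sum_le hv (pow_nonneg (v.nonneg x) _) _ _ fun i hi => ?_
    rw [map_mul, map_pow]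
    have h3 : v x ^ i ≤ v x ^ (f.natDegree - 1) := by
      apply pow_le_pow_right₀ hlt.le
      have := Finset.mem_range.1 hi
      omega
    calc v (f.coeff i : Qb) * v x ^ i ≤ 1 * v x ^ i :=
          mul_le_mul_of_nonneg_right (int_le hv _) (pow_nonneg (v.nonneg x) _)
      _ = v x ^ i := one_mul _
      _ ≤ _ := h3
  rw [map_pow] at h2
  have h4 : v x ^ (f.natDegree - 1) < v x ^ f.natDegree :=
    pow_lt_pow_right₀ hlt (by omega)
  linarith

/-- the prime ideal of `v` -/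
def PI {v : AbsoluteValue Qb ℝ} (hv : IsNonarchimedean v) : Ideal Zb where
  carrier := {x | v (x : Qb) < 1}
  zero_mem' := by
    show v ((0 : Zb) : Qb) < 1
    rw [ZeroMemClass.coe_zero, map_zero]
    exact one_pos
  add_mem' := by
    intro a b ha hb
    show v ((a + b : Zb) : Qb) < 1
    rw [AddMemClass.coe_add]
    exact (hv _ _).trans_lt (max_lt ha hb)
  smul_mem' := by
    intro c a ha
    show v ((c • a : Zb) : Qb) < 1
    rw [smul_eq_mul, MulMemClass.coe_mul, map_mul]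
    calc v (c : Qb) * v (a : Qb) ≤ 1 * v (a : Qb) :=
          mul_le_mul_of_nonneg_right (integral_le hv c.2) (v.nonneg _)
      _ = v (a : Qb) := one_mul _
      _ < 1 := ha

lemma mem_PI {v : AbsoluteValue Qb ℝ} (hv : IsNonarchimedean v) (x : Zb) :
    x ∈ PI hv ↔ v (x : Qb) < 1 := Iff.rfl

lemma prime_PI {v : AbsoluteValue Qb ℝ} (hv : IsNonarchimedean v) : (PI hv).IsPrime := by
  refine ⟨?_, ?_⟩
  · rw [Ne, Ideal.eq_top_iff_one, mem_PI]
    rw [OneMemClass.coe_one, map_one]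
    exact lt_irrefl _
  · intro x y hxy
    by_contra hcon
    push Not at hcon
    rw [mem_PI, mem_PI] at hcon
    push Not at hcon
    rw [mem_PI, MulMemClass.coe_mul, map_mul] at hxy
    have h1 : v (x : Qb) = 1 := le_antisymm (integral_le hv x.2) hcon.1
    have h2 : v (y : Qb) = 1 := le_antisymm (integral_le hv y.2) hcon.2
    rw [h1, h2, mul_one] at hxy
    exact lt_irrefl _ hxy

/-- Exactly one of the conjugate integers lies in the prime. -/
lemma key (q : ℕ) (P : Ideal Zb) (h : ℤ[X]) (a : Qb) (hq : IsPrimePow q)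
    (hP : P.IsPrime) (hp : ((q.minFac : ℕ) : Zb) ∈ P) (hh : ¬ (q.minFac : ℤ) ∣ h.coeff 0)
    (ha : a ∈ Om q h) (x y : Zb) (hx : (x : Qb) = a) (hy : (y : Qb) = (q : Qb) / a) :
    x * y = ((q : ℕ) : Zb) ∧ (x ∈ P ∧ y ∉ P ∨ x ∉ P ∧ y ∈ P) := by
  have ha0 : a ≠ 0 := ha.1
  have hxy : x * y = ((q : ℕ) : Zb) := by
    apply Subtype.ext
    push_cast
    rw [hx, hy]
    field_simp
  have hqP : ((q : ℕ) : Zb) ∈ P := by
    obtain ⟨k, hk⟩ := Nat.minFac_dvd q
    have e : ((q : ℕ) : Zb) = (k : Zb) * ((q.minFac : ℕ) : Zb) := by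
      rw [mul_comm, ← Nat.cast_mul, ← hk]
    rw [e]
    exact P.mul_mem_left _ hp
  refine ⟨hxy, ?_⟩
  have hor : x ∈ P ∨ y ∈ P := hP.mem_or_mem (by rw [hxy]; exact hqP)
  have hand : ¬ (x ∈ P ∧ y ∈ P) := by
    rintro ⟨h1, h2⟩
    have hb : x + y ∈ P := P.add_mem h1 h2
    have hev : aeval (x + y) h = 0 := by
      have h3 : algebraMap Zb Qb (aeval (x + y) h) = 0 := by
        rw [← Polynomial.aeval_algebraMap_apply]
        have h4 : algebraMap Zb Qb (x + y) = a + (q : Qb) / a := by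
          rw [map_add]
          show (x : Qb) + (y : Qb) = _
          rw [hx, hy]
        rw [h4]
        exact ha.2
      have h5 : Function.Injective (algebraMap Zb Qb) := Subtype.val_injective
      exact h5 (by rw [h3, map_zero])
    have hc : ((h.coeff 0 : ℤ) : Zb) ∈ P := by
      have h6 : aeval (x + y) h = aeval (x + y) h.divX * (x + y) + ((h.coeff 0 : ℤ) : Zb) := by
        conv_lhs => rw [← Polynomial.divX_mul_X_add h]
        simp
      rw [hev] at h6
      have h7 : ((h.coeff 0 : ℤ) : Zb) = - (aeval (x + y) h.divX * (x + y)) := by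
        rw [eq_neg_iff_add_eq_zero, add_comm]
        exact h6.symm
      rw [h7]
      exact P.neg_mem (P.mul_mem_left _ hb)
    have hpr : q.minFac.Prime := Nat.minFac_prime hq.one_lt.ne'
    have hco : IsCoprime ((q.minFac : ℕ) : ℤ) (h.coeff 0) :=
      (Nat.prime_iff_prime_int.mp hpr).coprime_iff_not_dvd.mpr hh
    obtain ⟨u, v, huv⟩ := hco
    apply hP.ne_top
    rw [Ideal.eq_top_iff_one]
    have h8 : ((1 : ℤ) : Zb) = (u : Zb) * ((q.minFac : ℕ) : Zb) + (v : Zb) * ((h.coeff 0 : ℤ) : Zb) := by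
      rw [← huv]
      push_cast
      rfl
    rw [Int.cast_one] at h8
    rw [h8]
    exact P.add_mem (P.mul_mem_left _ hp) (P.mul_mem_left _ hc)
  by_cases h1 : x ∈ P
  · left
    exact ⟨h1, fun h2 => hand ⟨h1, h2⟩⟩
  · right
    exact ⟨h1, hor.resolve_left h1⟩

/-- The value of the sign. -/
lemma sgn_val (P : Ideal Zb) (a : Qb) (σ : Qb ≃ₐ[ℚ] Qb) (x : Zb) (hx : (x : Qb) = σ a) :
    (x ∈ P → sgn P a σ = -1) ∧ (x ∉ P → sgn P a σ = 1) := by
  constructor
  · intro h
    unfold sgn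
    rw [if_pos ⟨x, h, hx⟩]
  · intro h
    unfold sgn
    rw [if_neg]
    rintro ⟨x', h1, h2⟩
    have : x' = x := Subtype.ext (h2.trans hx.symm)
    exact h (this ▸ h1)

end SLP_aux

open SLP_aux in
theorem t_SLP : S_SLP := by
  intro q v hq hv
  have hqne : (q : Qb) ≠ 0 := by
    have : q ≠ 0 := hq.pos.ne'
    exact_mod_cast this
  have hq0 : 0 < v (q : Qb) := (v.pos_iff).2 hqne
  have hq1 : v (q : Qb) < 1 := by
    obtain ⟨k, hk⟩ := Nat.minFac_dvd q
    have e : (q : Qb) = ((q.minFac : ℕ) : Qb) * (k : Qb) := by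
      rw [← Nat.cast_mul, ← hk]
    rw [e, map_mul]
    calc v ((q.minFac : ℕ) : Qb) * v (k : Qb) ≤ v ((q.minFac : ℕ) : Qb) * 1 :=
          mul_le_mul_of_nonneg_left (nat_le hv.na k) (v.nonneg _)
      _ = _ := mul_one _
      _ < 1 := hv.lt
  have hlog : Real.log (v (q : Qb)) < 0 := Real.log_neg hq0 hq1
  refine ⟨hq0, hq1, fun x => integral_le hv.na x.2, ?_, PI hv.na, prime_PI hv.na, ?_,
    fun x => mem_PI hv.na x, ?_⟩
  · intro a ha σ
    unfold slp
    have hσa : σ a ≠ 0 := by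
      rw [Ne, map_eq_zero]
      exact ha
    have hva : v (σ a) ≠ 0 := by
      rw [Ne, AbsoluteValue.eq_zero]
      exact hσa
    rw [map_div₀ σ, map_natCast, map_div₀ v, Real.log_div hq0.ne' hva, sub_div,
      div_self hlog.ne]
    ring
  · rw [mem_PI]
    have : (((q.minFac : ℕ) : Zb) : Qb) = ((q.minFac : ℕ) : Qb) := by simp
    rw [this]
    exact hv.lt
  · intro g h hh a ha σ
    have hdeg : h.natDegree = g := hh.1.2.1
    have hom := t_OMB g q h hq.pos hh.1.1 hdeg
    have hσ : σ a ∈ Om q h := hom.2.2.1 a ha σ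
    have h1 := hom.2.1 (σ a) hσ
    have h2 := hom.2.1 _ h1.1
    have hpP : ((q.minFac : ℕ) : Zb) ∈ PI hv.na := by
      rw [mem_PI]
      have : (((q.minFac : ℕ) : Zb) : Qb) = ((q.minFac : ℕ) : Qb) := by simp
      rw [this]
      exact hv.lt
    have k := key q (PI hv.na) h (σ a) hq (prime_PI hv.na) hpP hh.2 hσ ⟨σ a, h1.2.1⟩
      ⟨(q : Qb) / σ a, h2.2.1⟩ rfl rfl
    have s1 := sgn_val (PI hv.na) a σ ⟨σ a, h1.2.1⟩ rfl
    have hmul : v (σ a) * v ((q : Qb) / σ a) = v (q : Qb) := by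
      rw [← map_mul, mul_div_cancel₀ _ hσ.1]
    rcases k.2 with ⟨h3, h4⟩ | ⟨h3, h4⟩
    · rw [s1.1 h3]
      refine ⟨?_, Or.inr rfl⟩
      rw [mem_PI] at h4
      push Not at h4
      have h5 : v ((q : Qb) / σ a) = 1 := le_antisymm (integral_le hv.na h2.2.1) h4
      rw [h5, mul_one] at hmul
      unfold slp
      rw [hmul, div_self hlog.ne]
      norm_num
    · rw [s1.2 h3]
      refine ⟨?_, Or.inl rfl⟩
      rw [mem_PI] at h3
      push Not at h3
      have h5 : v (σ a) = 1 := le_antisymm (integral_le hv.na h1.2.1) h3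
      unfold slp
      rw [h5, Real.log_one]
      norm_num

end

end Pool.Agent.TJ4
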