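import Pool.Agent.TJ4.St

/-!
# VAL4: a multiplicative relation gives a relation of the slope vectors
-/

set_option autoImplicit false

open Polynomial IntermediateField

namespace Pool.Agent.TJ4

open Pool.Agent.TJ2 Pool.Agent.TJ3

namespace VAL4_aux

/-- the logarithm of a product -/
lemma log_prod (v : AbsoluteValue Qb ℝ) (σ : Qb ≃ₐ[ℚ] Qb) (l : List Qb) (hl : ∀ a ∈ l, a ≠ 0) :
    l.prod ≠ 0 ∧ Real.log (v (σ l.prod)) = (l.map fun a => Real.log (v (σ a))).sum := by
  induction l with
  | nil => simp
  | cons a l ih =>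
    have ha := hl a List.mem_cons_self
    obtain ⟨h1, h2⟩ := ih fun b hb => hl b (List.mem_cons_of_mem _ hb)
    refine ⟨by rw [List.prod_cons]; exact mul_ne_zero ha h1, ?_⟩
    rw [List.prod_cons, map_mul, map_mul, Real.log_mul, h2, List.map_cons, List.sum_cons]
    · rw [Ne, AbsoluteValue.eq_zero, map_eq_zero]
      exact ha
    · rw [Ne, AbsoluteValue.eq_zero, map_eq_zero]
      exact h1

/-- the sum of the slope vectors -/
lemma sum_slp (q : ℕ) (v : AbsoluteValue Qb ℝ) (σ : Qb ≃ₐ[ℚ] Qb) (l : List Qb)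
    (hl : ∀ a ∈ l, a ≠ 0) :
    (l.map fun a => slp q v a σ).sum =
      l.length - 2 * (Real.log (v (σ l.prod)) / Real.log (v (q : Qb))) := by
  rw [(log_prod v σ l hl).2]
  clear hl
  induction l with
  | nil => simp
  | cons a l ih =>
    rw [List.map_cons, List.sum_cons, ih, List.length_cons, List.map_cons, List.sum_cons]
    unfold slp
    push_cast
    ring

end VAL4_aux

open VAL4_aux in
theorem t_VAL4 (hSLP : S_SLP) : S_VAL4 := by
  intro q v hq hv l hl N hN hrel σ
  obtain ⟨hq0, hq1, hint, hbar, _⟩ := hSLP q v hq hv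
  have hqne : (q : Qb) ≠ 0 := by
    intro h
    rw [h, map_zero] at hq0
    exact lt_irrefl _ hq0
  have hl' : ∀ a ∈ l.map (fun a => (q : Qb) / a), a ≠ 0 := by
    intro a ha
    obtain ⟨b, hb, rfl⟩ := List.mem_map.1 ha
    exact div_ne_zero hqne (hl b hb)
  have h1 := sum_slp q v σ l hl
  have h2 := sum_slp q v σ _ hl'
  have h3 : Real.log (v (σ l.prod)) = Real.log (v (σ (l.map fun a => (q : Qb) / a).prod)) := by
    have h4 := congrArg (fun x => Real.log (v (σ x))) hrel
    simp only [map_pow, Real.log_pow] at h4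
    have hN0 : (N : ℝ) ≠ 0 := by
      have : N ≠ 0 := by omega
      exact_mod_cast this
    exact mul_left_cancel₀ hN0 h4
  have h4 : ((l.map (fun a => (q : Qb) / a)).map fun a => slp q v a σ).sum =
      - (l.map fun a => slp q v a σ).sum := by
    clear h1 h2 h3 hl' hrel
    induction l with
    | nil => simp
    | cons a l ih =>
      rw [List.map_cons, List.map_cons, List.map_cons, List.sum_cons, List.sum_cons,
        ih (fun b hb => hl b (List.mem_cons_of_mem _ hb)), hbar a (hl a List.mem_cons_self) σ]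
      ring
  rw [List.length_map] at h2
  rw [← h3, ← h1, h4] at h2
  linarith

end Pool.Agent.TJ4
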