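import Pool.Agent.TJ4.St
import Pool.Agent.TJ3.THR

/-!
# C34: a simple sufficient condition in the ordinary case
-/

set_option autoImplicit false

open Polynomial IntermediateField

namespace Pool.Agent.TJ4

open Pool.Agent.TJ2 Pool.Agent.TJ3

namespace C34_aux

/-- opposite slopes: geometric isogeny -/
lemma iso_of (hUNI4 : S_UNI4) (hGIS4 : S_GIS4) {q : ℕ} {v : AbsoluteValue Qb ℝ}
    (hq : IsPrimePow q) (hv : Ab q v) {h h' : ℤ[X]} (hh : h ∈ FL q)
    (hh' : h' ∈ FL q) {a a' : Qb} (ha : a ∈ Om q h) (ha' : a' ∈ Om q h')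
    (hs : ∀ σ, slp q v a σ = - slp q v a' σ) : GIso q h h' := by
  have hq0 : (q : Qb) ≠ 0 := by
    have := hq.one_lt
    have : q ≠ 0 := by omega
    exact_mod_cast this
  obtain ⟨N, hN, hrel⟩ := hUNI4 q v hq hv [a, a'] (by
    intro b hb
    rcases List.mem_cons.1 hb with rfl | hb
    · exact ⟨h, hh, ha⟩
    · rw [List.mem_singleton] at hb
      subst hb
      exact ⟨h', hh', ha'⟩) (by
    intro σ
    have h1 := hs σ
    simp [h1])
  have ha0 : a ≠ 0 := ha.1
  have ha0' : a' ≠ 0 := ha'.1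
  have hb' : (q : Qb) / a' ∈ Om q h' := (((hGIS4 q hq).2.1 h' hh').2.2.1 a' ha').2.2.1
  refine ⟨a, ha, (q : Qb) / a', hb', 2 * N, by omega, ?_⟩
  have e1 : (a * a') ^ N = ((q : Qb) / a * ((q : Qb) / a')) ^ N := by
    simpa using hrel
  have e2 : a ^ (2 * N) * (a' ^ N) = (a * a') ^ N * a ^ N := by
    rw [two_mul, pow_add, mul_pow]
    ring
  have e3 : ((q : Qb) / a') ^ (2 * N) * (a' ^ N) =
      ((q : Qb) / a * ((q : Qb) / a')) ^ N * a ^ N := by
    rw [two_mul, pow_add, ← mul_pow, ← mul_pow, ← mul_pow]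
    congr 1
    field_simp
  apply mul_right_cancel₀ (pow_ne_zero N ha0')
  rw [e2, e3, e1]

lemma Fd_single (a : Qb) : Fd {a} = ℚ⟮a⟯ := by
  simp [Fd]

/-- a single root and a pair: independent -/
lemma pair_case {G : Type} {s t u : G → ℝ} (hs : ∀ g, s g = 1 ∨ s g = -1)
    (ht : ∀ g, t g = 1 ∨ t g = -1) {g₁ g₂ : G} (h1 : t g₁ = - u g₁) (h2 : t g₂ = u g₂)
    {c d : ℝ} (h : ∀ g, c * s g + d * (t g + u g) = 0) : c = 0 ∧ d = 0 := by
  have hc : c = 0 := by
    have h3 := h g₁
    rw [h1] at h3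
    rcases hs g₁ with h4 | h4 <;> rw [h4] at h3 <;> linarith
  refine ⟨hc, ?_⟩
  have h3 := h g₂
  rw [← h2, hc] at h3
  rcases ht g₂ with h4 | h4 <;> rw [h4] at h3 <;> linarith

end C34_aux

open C34_aux in
theorem t_C34 (hSLP : S_SLP) (hUNI4 : S_UNI4) (hGIS4 : S_GIS4) : S_C34 := by
  classical
  intro q v S hq hv hS hord h4 h3 n h B hB hone hfield hiso
  obtain ⟨-, -, -, hneg, P, -, -, -, hsl0⟩ := hSLP q v hq hv
  have hOrd : ∀ h ∈ S, h ∈ Ord h.natDegree q := fun h hh => ⟨(hS hh).2.1, hord h hh⟩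
  have hsl : ∀ h ∈ S, ∀ a ∈ Om q h, ∀ σ : Qb ≃ₐ[ℚ] Qb,
      slp q v a σ = ((sgn P a σ : ℚ) : ℝ) ∧ (sgn P a σ = 1 ∨ sgn P a σ = -1) :=
    fun h hh a ha σ => hsl0 _ h (hOrd h hh) a ha σ
  have hpm : ∀ h ∈ S, ∀ a ∈ Om q h, ∀ σ : Qb ≃ₐ[ℚ] Qb, slp q v a σ = 1 ∨ slp q v a σ = -1 := by
    intro h hh a ha σ
    obtain ⟨h1, h2 | h2⟩ := hsl h hh a ha σ
    · left
      rw [h1, h2]
      norm_num
    · right
      rw [h1, h2]
      norm_num
  by_cases hall : ∀ i, (B i).card = 1
  · -- all single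
    choose a ha using fun i => Finset.card_eq_one.1 (hall i)
    have haOm : ∀ i, a i ∈ Om q (h i) := by
      intro i
      exact ((hB i).2.1 (a i) (by rw [ha i]; exact Finset.mem_singleton_self _)).1
    have hfield' : ∀ i j, ℚ⟮a i⟯ = ℚ⟮a j⟯ := by
      intro i j
      rw [← Fd_single, ← Fd_single, ← ha i, ← ha j]
      exact hfield i j
    have hn : n ≤ 3 := by
      by_contra hn
      have hn4 : 4 ≤ n := by omega
      obtain ⟨i, j, hij, hg⟩ := h4 (fun i => h (Fin.castLE hn4 i)) (fun i => a (Fin.castLE hn4 i))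
        (fun i => ⟨(hB _).1, haOm _⟩) (fun i j => hfield' _ _)
      exact hiso _ _ (fun h => hij (Fin.castLE_injective hn4 h)) hg
    have hTHR := t_THR (Qb ≃ₐ[ℚ] Qb) n (fun i => sgn P (a i)) hn ⟨1⟩
      (fun i σ => (hsl (h i) (hB i).1 (a i) (haOm i) σ).2) (by
      intro i j hij
      have hbj : (q : Qb) / a j ∈ Om q (h j) :=
        (((hGIS4 q hq).2.1 (h j) (hS (hB j).1)).2.2.1 (a j) (haOm j)).2.2.1
      constructor
      · intro hs
        apply hiso i j hij
        refine iso_of hUNI4 hGIS4 hq hv (hS (hB i).1) (hS (hB j).1) (haOm i) hbj ?_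
        intro σ
        rw [hneg (a j) (haOm j).1 σ, neg_neg, (hsl (h i) (hB i).1 (a i) (haOm i) σ).1,
          (hsl (h j) (hB j).1 (a j) (haOm j) σ).1]
        exact congrArg (fun x : ℚ => (x : ℝ)) (congrFun hs σ)
      · intro hs
        apply hiso i j hij
        refine iso_of hUNI4 hGIS4 hq hv (hS (hB i).1) (hS (hB j).1) (haOm i) (haOm j) ?_
        intro σ
        rw [(hsl (h i) (hB i).1 (a i) (haOm i) σ).1, (hsl (h j) (hB j).1 (a j) (haOm j) σ).1]
        have h1 := congrFun hs σ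
        simp only [Pi.neg_apply] at h1
        rw [h1]
        push_cast
        rfl)
    rw [Fintype.linearIndependent_iff] at hTHR ⊢
    intro c hc
    apply hTHR c
    funext σ
    have h1 := congrFun hc σ
    simp only [Finset.sum_apply, Pi.smul_apply, Pi.zero_apply, smul_eq_mul] at h1 ⊢
    have h2 : ∀ i, c i • ∑ b ∈ B i, slp q v b σ = ((c i * sgn P (a i) σ : ℚ) : ℝ) := by
      intro i
      rw [ha i, Finset.sum_singleton, (hsl (h i) (hB i).1 (a i) (haOm i) σ).1, Rat.smul_def]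
      push_cast
      rfl
    simp only [h2] at h1
    rw [← Rat.cast_sum] at h1
    exact_mod_cast h1
  · -- a pair
    push Not at hall
    obtain ⟨i, hi⟩ := hall
    have hi2 : (B i).card = 2 := ((hB i).2.2).resolve_left hi
    obtain ⟨j, hj⟩ := hone
    have hij : j ≠ i := by
      intro h
      rw [h] at hj
      exact hi hj
    have hk : ∀ k, k = j ∨ k = i := by
      intro k
      by_contra hk
      push Not at hk
      obtain ⟨i', j', hij', hg⟩ := h3 ![h j, h i, h k] ![B j, B i, B k] (by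
        intro l
        fin_cases l
        · exact hB j
        · exact hB i
        · exact hB k) hj hi2 (by
        intro l l'
        fin_cases l <;> fin_cases l' <;> exact hfield _ _)
      have hkj := hk.1
      have hki := hk.2
      fin_cases i' <;> fin_cases j'
      · exact hij' rfl
      · exact hiso j i hij hg
      · exact hiso j k (Ne.symm hkj) hg
      · exact hiso i j hij.symm hg
      · exact hij' rfl
      · exact hiso i k (Ne.symm hki) hg
      · exact hiso k j hkj hg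
      · exact hiso k i hki hg
      · exact hij' rfl
    obtain ⟨x, hx⟩ := Finset.card_eq_one.1 hj
    obtain ⟨y, z, hyz, hyzB⟩ := Finset.card_eq_two.1 hi2
    have hxB : x ∈ B j := by rw [hx]; exact Finset.mem_singleton_self _
    have hyB : y ∈ B i := by rw [hyzB]; simp
    have hzB : z ∈ B i := by rw [hyzB]; simp
    have hxO := ((hB j).2.1 x hxB).1
    have hyO := ((hB i).2.1 y hyB).1
    have hzO := ((hB i).2.1 z hzB).1
    have hyz' : y ≠ (q : Qb) / z := fun h => ((hB i).2.1 z hzB).2 (h ▸ hyB)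
    obtain ⟨τ, hτz, hτ⟩ := (hS (hB i).1).2.2.2.1 z hzO
    have hτy : τ y = y := hτ y hyO hyz hyz'
    have e1 : ∀ σ, slp q v z (σ * τ) = - slp q v z σ := by
      intro σ
      rw [← slp_apply, hτz, hneg z hzO.1]
    have e2 : ∀ σ, slp q v y (σ * τ) = slp q v y σ := by
      intro σ
      rw [← slp_apply, hτy]
    obtain ⟨g₁, g₂, hg1, hg2⟩ : ∃ g₁ g₂, slp q v y g₁ = - slp q v z g₁ ∧
        slp q v y g₂ = slp q v z g₂ := by
      by_cases h1 : slp q v y 1 = slp q v z 1
      · exact ⟨1 * τ, 1, by rw [e1, e2, neg_neg, h1], h1⟩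
      · refine ⟨1, 1 * τ, ?_, ?_⟩
        · rcases hpm (h i) (hB i).1 y hyO 1 with h2 | h2 <;>
          rcases hpm (h i) (hB i).1 z hzO 1 with h5 | h5 <;> rw [h2, h5] at h1 ⊢
          · exact absurd rfl h1
          · norm_num
          · exact absurd rfl h1
        · rw [e1, e2]
          rcases hpm (h i) (hB i).1 y hyO 1 with h2 | h2 <;>
          rcases hpm (h i) (hB i).1 z hzO 1 with h5 | h5 <;> rw [h2, h5] at h1 ⊢
          · exact absurd rfl h1
          · norm_num
          · exact absurd rfl h1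
    rw [Fintype.linearIndependent_iff]
    intro c hc
    have h5 : ∀ σ, (c j : ℝ) * slp q v x σ + (c i : ℝ) * (slp q v y σ + slp q v z σ) = 0 := by
      intro σ
      have h1 := congrFun hc σ
      simp only [Finset.sum_apply, Pi.smul_apply, Pi.zero_apply] at h1
      rw [Fintype.sum_eq_add j i hij (by
        intro k hk'
        rcases hk k with h | h
        · exact absurd h hk'.1
        · exact absurd h hk'.2), hx, hyzB, Finset.sum_singleton, Finset.sum_pair hyz,
        Rat.smul_def, Rat.smul_def] at h1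
      exact h1
    obtain ⟨h6, h7⟩ := pair_case (fun σ => hpm (h j) (hB j).1 x hxO σ)
      (fun σ => hpm (h i) (hB i).1 y hyO σ) hg1 hg2 h5
    intro k
    rcases hk k with h | h
    · rw [h]
      exact_mod_cast h6
    · rw [h]
      exact_mod_cast h7

end Pool.Agent.TJ4
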