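import Pool.Agent.TJ4.St

/-!
# Module CRC: the criterion of TJ3 implies the new one in the ordinary case
-/

open Polynomial IntermediateField

namespace Pool.Agent.TJ4

open Pool.Agent.TJ2 Pool.Agent.TJ3

noncomputable section

namespace CRC_aux

/-- common denominators -/
theorem denom {n : ℕ} (g : Fin n → ℚ) : ∃ (N : ℕ) (c : Fin n → ℤ), N ≠ 0 ∧
    ∀ i, (c i : ℚ) = N * g i := by
  classical
  have h : ∀ i, ∃ k : ℤ, (k : ℚ) = (∏ j, (g j).den : ℕ) * g i := by
    intro i
    obtain ⟨k, hk⟩ := Finset.dvd_prod_of_mem (fun j => (g j).den) (Finset.mem_univ i)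
    refine ⟨k * (g i).num, ?_⟩
    rw [hk]
    push_cast
    have e := Rat.mul_den_eq_num (g i)
    rw [← e]
    ring
  choose c hc using h
  refine ⟨∏ j, (g j).den, c, ?_, hc⟩
  exact Finset.prod_ne_zero_iff.mpr fun j _ => (g j).den_nz

end CRC_aux

open CRC_aux in
theorem t_CRC (hSLP : S_SLP) (hGIS4 : S_GIS4) (hIND4 : S_IND4) : S_CRC := by
  classical
  intro q v S hq hv hS hcrit n h B hB _ _ hiso
  obtain ⟨_, _, _, _, P, hP, hpP, _, hsl⟩ := hSLP q v hq hv
  have hG := hGIS4 q hq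
  rw [Fintype.linearIndependent_iff]
  intro g hg i
  obtain ⟨N, c, hN, hc⟩ := denom g
  -- the finite sets of the roots
  have hfin : ∀ j, (Om q (h j)).Finite := fun j => (hG.2.1 (h j) (hG.1 (hS (hB j).1))).1
  set A : Fin n → Finset Qb := fun j => (hfin j).toFinset with hA
  have hAm : ∀ j a, a ∈ A j ↔ a ∈ Om q (h j) := fun j a => by
    rw [hA]
    exact Set.Finite.mem_toFinset _
  have hBA : ∀ j, B j ⊆ A j := fun j b hb => (hAm j b).mpr ((hB j).2.1 b hb).1
  set m : Fin n → Qb → ℤ := fun j a => if a ∈ B j then c j else 0 with hm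
  have hrel : ∀ σ : Qb ≃ₐ[ℚ] Qb, ∑ j, ∑ a ∈ A j, (m j a : ℚ) * sgn P a σ = 0 := by
    intro σ
    have e1 : ∀ j, ∑ a ∈ A j, (m j a : ℚ) * sgn P a σ = (c j : ℚ) * ∑ b ∈ B j, sgn P b σ := by
      intro j
      rw [Finset.mul_sum, ← Finset.sum_subset (hBA j)]
      · refine Finset.sum_congr rfl fun b hb => ?_
        rw [hm]
        simp only
        rw [if_pos hb]
      · intro a _ ha
        rw [hm]
        simp only
        rw [if_neg ha]
        simp
    rw [Finset.sum_congr rfl fun j _ => e1 j]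
    -- cast to the real numbers
    have e2 := congrFun hg σ
    simp only [Finset.sum_apply, Pi.smul_apply, Pi.zero_apply] at e2
    have e3 : ∀ j, ∑ b ∈ B j, slp q v b σ = ((∑ b ∈ B j, sgn P b σ : ℚ) : ℝ) := by
      intro j
      rw [Rat.cast_sum]
      refine Finset.sum_congr rfl fun b hb => ?_
      exact (hsl (h j).natDegree (h j) (hS (hB j).1).2.1 b ((hB j).2.1 b hb).1 σ).1
    have e4 : ∑ j, (g j : ℚ) * ∑ b ∈ B j, sgn P b σ = 0 := by
      have e5 : ((∑ j, (g j : ℚ) * ∑ b ∈ B j, sgn P b σ : ℚ) : ℝ) = 0 := by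
        rw [Rat.cast_sum, ← e2]
        refine Finset.sum_congr rfl fun j _ => ?_
        rw [e3 j, Rat.smul_def, Rat.cast_mul]
      exact_mod_cast e5
    calc ∑ j, (c j : ℚ) * ∑ b ∈ B j, sgn P b σ
        = ∑ j, (N : ℚ) * (g j * ∑ b ∈ B j, sgn P b σ) := by
          refine Finset.sum_congr rfl fun j _ => ?_
          rw [hc j]
          ring
      _ = (N : ℚ) * ∑ j, (g j : ℚ) * ∑ b ∈ B j, sgn P b σ := by rw [Finset.mul_sum]
      _ = 0 := by rw [e4, mul_zero]
  have hI := hIND4 q P S hq hP hpP hS (hcrit P hP hpP) n h A m (fun j => (hB j).1) hiso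
    (fun j => by
      ext a
      rw [Finset.mem_coe]
      exact hAm j a) hrel i
  -- an element of B i
  have hne : (B i).Nonempty := by
    rw [← Finset.card_pos]
    rcases (hB i).2.2 with e | e <;> omega
  obtain ⟨b, hb⟩ := hne
  have e1 := hI b (hBA i hb)
  rw [hm] at e1
  simp only at e1
  rw [if_neg ((hB i).2.1 b hb).2, if_pos hb] at e1
  have e2 := hc i
  rw [← e1, Int.cast_zero] at e2
  rcases mul_eq_zero.mp e2.symm with e3 | e3
  · exact absurd (by exact_mod_cast e3) hN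
  · exact e3

end

end Pool.Agent.TJ4
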