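import Pool.Agent.TJ4.St
import Pool.Agent.TJ3.EAux

/-!
# E14: dependent slope vectors give data
-/

open Polynomial IntermediateField

namespace Pool.Agent.TJ4

open Pool.Agent.TJ2 Pool.Agent.TJ3

noncomputable section

namespace E14_aux

open E2_aux

/-- integer relations of the slope vectors give data -/
theorem data (hSLP : S_SLP) (hUNI4 : S_UNI4) (hGIS4 : S_GIS4) (q : ℕ) (v : AbsoluteValue Qb ℝ)
    (S : Set ℤ[X]) (hq : IsPrimePow q) (hv : Ab q v) (hS : S ⊆ FL q) (n : ℕ)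
    (h : Fin n → ℤ[X]) (r₀ : Fin n → Qb) (hr : ∀ k, h k ∈ S ∧ r₀ k ∈ Om q (h k))
    (c : Fin n → ℤ) (hc : c ≠ 0)
    (hrel : ∀ σ : Qb ≃ₐ[ℚ] Qb, ∑ k, (c k : ℝ) * slp q v (r₀ k) σ = 0)
    (hind : ∀ k k', k ≠ k' → Ind q (r₀ k) (r₀ k')) : HasData q S := by
  classical
  have hq1 : 1 < q := hq.one_lt
  have hq0 : (q : Qb) ≠ 0 := by
    have : q ≠ 0 := by omega
    exact_mod_cast this
  obtain ⟨-, hom0, -, gpair, -⟩ := hGIS4 q hq
  have hom : ∀ k, r₀ k ≠ 0 ∧ (q : Qb) / r₀ k ∈ Om q (h k) := by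
    intro k
    have hk := (hom0 (h k) (hS (hr k).1)).2.2.1 (r₀ k) (hr k).2
    exact ⟨hk.1, hk.2.2.1⟩
  let r : Fin n → Qb := fun k => if 0 ≤ c k then r₀ k else (q : Qb) / r₀ k
  let e : Fin n → ℕ := fun k => (c k).natAbs
  have hrom : ∀ k, r k ∈ Om q (h k) := by
    intro k
    by_cases hk : 0 ≤ c k
    · simp only [r, if_pos hk]
      exact (hr k).2
    · simp only [r, if_neg hk]
      exact (hom k).2
  have hrind : ∀ k k', k ≠ k' → Ind q (r k) (r k') := by
    intro k k' hkk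
    have h1 : Ind q (r k) (r₀ k') := by
      by_cases hk : 0 ≤ c k
      · simp only [r, if_pos hk]
        exact hind k k' hkk
      · simp only [r, if_neg hk]
        exact Ind_bar hq0 (hom k).1 (hind k k' hkk)
    by_cases hk : 0 ≤ c k'
    · simp only [r, if_pos hk] at h1 ⊢
      exact h1
    · have h2 := Ind_symm (Ind_bar hq0 (hom k').1 (Ind_symm h1))
      simp only [r, if_neg hk] at h2 ⊢
      exact h2
  let l : List Qb := (List.ofFn fun k => List.replicate (e k) (r k)).flatten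
  have hl : ∀ a ∈ l, ∃ h ∈ FL q, a ∈ Om q h := by
    intro a ha
    obtain ⟨l', hl', hal⟩ := List.mem_flatten.1 ha
    obtain ⟨k, rfl⟩ := (List.mem_ofFn' _ _).1 hl'
    have h1 := List.eq_of_mem_replicate hal
    rw [h1]
    exact ⟨h k, hS (hr k).1, hrom k⟩
  have hsum : ∀ σ : Qb ≃ₐ[ℚ] Qb, (l.map fun a => slp q v a σ).sum = 0 := by
    intro σ
    rw [wlist_sum n r e, ← hrel σ]
    refine Finset.sum_congr rfl fun k _ => ?_
    have h1 := (hSLP q v hq hv).2.2.2.1 (r₀ k) (hom k).1 σ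
    rw [nsmul_eq_mul]
    by_cases hk : 0 ≤ c k
    · have h2 : ((e k : ℕ) : ℝ) = (c k : ℝ) := by
        have : ((e k : ℕ) : ℤ) = c k := Int.natAbs_of_nonneg hk
        exact_mod_cast this
      simp only [r, if_pos hk]
      rw [h2]
    · have h2 : ((e k : ℕ) : ℝ) = -(c k : ℝ) := by
        have : ((e k : ℕ) : ℤ) = -c k := by
          have := Int.ofNat_natAbs_of_nonpos (le_of_not_ge hk)
          exact this
        exact_mod_cast this
      simp only [r, if_neg hk]
      rw [h2, h1]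
      ring
  obtain ⟨N, hN, hrelN⟩ := hUNI4 q v hq hv l hl hsum
  refine ⟨n, h, r, e, N, fun k => ⟨(hr k).1, hrom k⟩, ?_, hN, ?_, fun k k' hkk M hM =>
    (hrind k k' hkk M hM).1, ?_⟩
  · by_contra hcon
    push Not at hcon
    refine hc ?_
    funext k
    have h1 := hcon k
    have h2 : (c k).natAbs = 0 := by
      change e k < 1 at h1
      simp only [e] at h1
      omega
    exact Int.natAbs_eq_zero.1 h2
  · have h1 := wlist n r e (fun a : Qb => a)
    have h2 := wlist n r e (fun a : Qb => (q : Qb) / a)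
    rw [List.map_id'] at h1
    rw [← h1, ← h2]
    exact hrelN
  · intro k k' M hM
    by_cases hkk : k = k'
    · subst hkk
      intro h1
      have h2 := gpair (h k) (hS (hr k).1) (r k) (hrom k) (r k) (hrom k) M hM h1
      exact ((hom0 (h k) (hS (hr k).1)).2.2.1 (r k) (hrom k)).2.2.2 h2.symm
    · exact (hrind k k' hkk M hM).2

end E14_aux

open E2_aux in
theorem t_E14 (hSLP : S_SLP) (hUNI4 : S_UNI4) (hGIS4 : S_GIS4) : S_E14 := by
  classical
  intro q v S hq hv hS n h B hB hiso hdep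
  obtain ⟨-, hom0, guniq, gpair, -⟩ := hGIS4 q hq
  obtain ⟨g, hg, i₀, hi₀⟩ := Fintype.not_linearIndependent_iff.1 hdep
  let c : Fin n → ℤ := fun i => (g i).num * ∏ j ∈ Finset.univ.erase i, ((g j).den : ℤ)
  have hc : ∀ i, (c i : ℚ) = g i * ∏ j, ((g j).den : ℚ) := by
    intro i
    have h1 : ∏ j, ((g j).den : ℚ) = ((g i).den : ℚ) * ∏ j ∈ Finset.univ.erase i, ((g j).den : ℚ) :=
      (Finset.mul_prod_erase _ _ (Finset.mem_univ i)).symm
    have h2 : g i * ((g i).den : ℚ) = (g i).num := Rat.mul_den_eq_num (g i)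
    rw [h1, ← mul_assoc, h2]
    simp [c]
  have hD : ∏ j, ((g j).den : ℚ) ≠ 0 :=
    Finset.prod_ne_zero_iff.2 fun j _ => by exact_mod_cast (g j).den_nz
  have hci₀ : c i₀ ≠ 0 := by
    intro h0
    have h1 := hc i₀
    rw [h0] at h1
    exact (mul_ne_zero hi₀ hD) (by simpa using h1.symm)
  have hcrel : ∀ σ : Qb ≃ₐ[ℚ] Qb, ∑ i, (c i : ℝ) * ∑ b ∈ B i, slp q v b σ = 0 := by
    intro σ
    have h1 := congrFun hg σ
    rw [Finset.sum_apply, Pi.zero_apply] at h1
    have h2 : ∑ i, (c i : ℝ) * ∑ b ∈ B i, slp q v b σ =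
        ((∏ j, ((g j).den : ℚ) : ℚ) : ℝ) * ∑ i, (g i • fun σ : Qb ≃ₐ[ℚ] Qb =>
          ∑ b ∈ B i, slp q v b σ) σ := by
      rw [Finset.mul_sum]
      refine Finset.sum_congr rfl fun i _ => ?_
      rw [Pi.smul_apply, Rat.smul_def, ← mul_assoc]
      congr 1
      have h3 := congrArg (fun x : ℚ => (x : ℝ)) (hc i)
      simp only [Rat.cast_mul, Rat.cast_intCast] at h3
      rw [h3, mul_comm]
    rw [h2, h1, mul_zero]
  let T : Type := Σ i : Fin n, {b : Qb // b ∈ B i}
  let E : T ≃ Fin (Fintype.card T) := Fintype.equivFin T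
  obtain ⟨b₀, hb₀⟩ : (B i₀).Nonempty := by
    rw [← Finset.card_pos]
    rcases (hB i₀).2.2 with h1 | h1 <;> omega
  refine E14_aux.data hSLP hUNI4 hGIS4 q v S hq hv hS (Fintype.card T)
    (fun k => h (E.symm k).1) (fun k => (E.symm k).2.1)
    (fun k => ⟨(hB _).1, ((hB _).2.1 _ (E.symm k).2.2).1⟩) (fun k => c (E.symm k).1) ?_ ?_ ?_
  · intro h0
    have h1 := congrFun h0 (E ⟨i₀, ⟨b₀, hb₀⟩⟩)
    simp only [Equiv.symm_apply_apply, Pi.zero_apply] at h1
    exact hci₀ h1
  · intro σ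
    rw [← hcrel σ]
    have h1 : ∑ k : Fin (Fintype.card T), (c (E.symm k).1 : ℝ) * slp q v (E.symm k).2.1 σ =
        ∑ t : T, (c t.1 : ℝ) * slp q v t.2.1 σ :=
      Equiv.sum_comp E.symm (fun t : T => (c t.1 : ℝ) * slp q v t.2.1 σ)
    rw [h1, Fintype.sum_sigma]
    refine Finset.sum_congr rfl fun i _ => ?_
    rw [← Finset.sum_coe_sort (B i) (fun b => slp q v b σ), Finset.mul_sum]
  · intro k k' hkk M hM
    have hne : E.symm k ≠ E.symm k' := fun h => hkk (E.symm.injective h)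
    generalize E.symm k = t at hne
    generalize E.symm k' = t' at hne
    obtain ⟨i, b, hb⟩ := t
    obtain ⟨i', b', hb'⟩ := t'
    have hbO := ((hB i).2.1 b hb).1
    have hbO' := ((hB i').2.1 b' hb').1
    show b ^ M ≠ b' ^ M ∧ (b * b') ^ M ≠ (q : Qb) ^ M
    by_cases hii : i = i'
    · subst hii
      constructor
      · intro h1
        apply hne
        have h2 := guniq (h i) (hS (hB i).1) b hbO b' hbO' M hM h1
        subst h2
        rfl
      · intro h1
        have h2 := gpair (h i) (hS (hB i).1) b hbO b' hbO' M hM h1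
        apply ((hB i).2.1 b hb).2
        rw [← h2]
        exact hb'
    · constructor
      · intro h1
        exact hiso i i' hii ⟨b, hbO, b', hbO', M, hM, h1⟩
      · intro h1
        have h3 := (hom0 (h i') (hS (hB i').1)).2.2.1 b' hbO'
        refine hiso i i' hii ⟨b, hbO, (q : Qb) / b', h3.2.2.1, M, hM, ?_⟩
        rw [div_pow, ← h1, mul_pow, mul_div_cancel_right₀ _ (pow_ne_zero M h3.1)]

end

end Pool.Agent.TJ4
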