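import Pool.Agent.TJ4.St

/-!
# GRP4: minimal relations
-/

set_option autoImplicit false

namespace Pool.Agent.TJ4

open Pool.Agent.TJ2 Pool.Agent.TJ3

theorem t_GRP4 (hORB4 : S_ORB4) : S_GRP4 := by
  intro Γ ι _ _ _ Ω _ _ _ bar R h1 h2 h3 htr hfl h5 h6
  classical
  let supp : (∀ i, Ω i → ℤ) → Finset ι := fun d => Finset.univ.filter (fun i => d i ≠ 0)
  have hmem : ∀ d i, i ∈ supp d ↔ d i ≠ 0 := fun d i => by simp [supp]
  obtain ⟨d₀, ⟨hd₀R, hd₀odd, hd₀ne⟩, hmin⟩ : ∃ d₀ : ∀ i, Ω i → ℤ,
      (d₀ ∈ R ∧ (∀ i x, d₀ i (bar i x) = - d₀ i x) ∧ d₀ ≠ 0) ∧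
      ∀ d : ∀ i, Ω i → ℤ, (d ∈ R ∧ (∀ i x, d i (bar i x) = - d i x) ∧ d ≠ 0) →
        (supp d₀).card ≤ (supp d).card := by
    have hex : ∃ n, ∃ d : ∀ i, Ω i → ℤ,
        (d ∈ R ∧ (∀ i x, d i (bar i x) = - d i x) ∧ d ≠ 0) ∧ (supp d).card = n := by
      obtain ⟨d, h, h', h''⟩ := h6
      exact ⟨_, d, ⟨h, h', h''⟩, rfl⟩
    obtain ⟨d, hd, hdn⟩ := Nat.find_spec hex
    exact ⟨d, hd, fun d' hd' => by rw [hdn]; exact Nat.find_min' hex ⟨d', hd', rfl⟩⟩
  have hzero : ∀ d ∈ R, (∀ i x, d i (bar i x) = - d i x) → (∀ i, d₀ i = 0 → d i = 0) →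
      ∀ i, d₀ i ≠ 0 → d i = 0 → d = 0 := by
    intro d hdR hodd hsub i hi hdi
    by_contra hne
    have h := hmin d ⟨hdR, hodd, hne⟩
    have hlt : (supp d).card < (supp d₀).card := by
      apply Finset.card_lt_card
      refine ⟨fun j hj => ?_, fun hc => ?_⟩
      · rw [hmem] at hj ⊢
        exact fun h => hj (hsub j h)
      · exact (hmem d i).1 (hc ((hmem d₀ i).2 hi)) hdi
    omega
  have h11 : ∀ i, d₀ i ≠ 0 → ∃ d ∈ R, (∀ i x, d i (bar i x) = - d i x) ∧
      (∀ j, d₀ j = 0 → d j = 0) ∧
      ∃ (x : Ω i) (c : ℤ), c ≠ 0 ∧ d i = Pi.single x c - Pi.single (bar i x) c := by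
    intro i hi
    obtain ⟨x, hx⟩ : ∃ x, d₀ i x ≠ 0 := by
      by_contra hc
      push Not at hc
      exact hi (funext hc)
    obtain ⟨s, hs1, hs2⟩ := hfl i x
    have hsx : s • bar i x = x := by rw [← h3, hs1, h1]
    have hs' : ∀ y, s⁻¹ • y = Equiv.swap x (bar i x) y := by
      intro y
      rw [inv_smul_eq_iff]
      by_cases hy : y = x
      · subst hy
        rw [Equiv.swap_apply_left, hsx]
      · by_cases hy' : y = bar i x
        · subst hy'
          rw [Equiv.swap_apply_right, hs1]
        · rw [Equiv.swap_apply_of_ne_of_ne hy hy', hs2 y hy hy']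
    refine ⟨d₀ - (fun j y => d₀ j (s⁻¹ • y)), R.sub_mem hd₀R (h5 s d₀ hd₀R), ?_, ?_, x,
      2 * d₀ i x, by omega, ?_⟩
    · intro j y
      simp only [Pi.sub_apply]
      rw [hd₀odd, ← h3, hd₀odd]
      ring
    · intro j hj
      funext y
      simp [hj]
    · funext y
      simp only [Pi.sub_apply]
      rw [hs']
      by_cases hy : y = x
      · subst hy
        rw [Equiv.swap_apply_left, hd₀odd, Pi.single_eq_same, Pi.single_eq_of_ne (h2 i _).symm]
        ring
      · by_cases hy' : y = bar i x
        · subst hy'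
          rw [Equiv.swap_apply_right, hd₀odd, Pi.single_eq_same, Pi.single_eq_of_ne (h2 i _)]
          ring
        · rw [Equiv.swap_apply_of_ne_of_ne hy hy', Pi.single_eq_of_ne hy, Pi.single_eq_of_ne hy']
          ring
  obtain ⟨i₁, hi₁⟩ : ∃ i, d₀ i ≠ 0 := by
    by_contra hc
    push Not at hc
    exact hd₀ne (funext hc)
  obtain ⟨i, hiI, hcardmin⟩ := Finset.exists_min_image (supp d₀)
    (fun i => Fintype.card (Ω i)) ⟨i₁, (hmem _ _).2 hi₁⟩
  have hi : d₀ i ≠ 0 := (hmem _ _).1 hiI
  obtain ⟨d, hdR, hodd, hsub, x, c, hc, hd⟩ := h11 i hi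
  have hdx : d i x ≠ 0 := by
    rw [hd]
    simp only [Pi.sub_apply, Pi.single_eq_same, Pi.single_eq_of_ne (h2 i x).symm]
    omega
  have hdne : d ≠ 0 := by
    intro h
    apply hdx
    rw [h]
    rfl
  have hw0 : ∀ j, d₀ j ≠ 0 → d j ≠ 0 := fun j hj h => hdne (hzero d hdR hodd hsub j hj h)
  -- the translates
  have htR : ∀ s : Γ, (fun k y => d k (s⁻¹ • y)) ∈ R := fun s => h5 s d hdR
  have htodd : ∀ (s : Γ) k y, d k (s⁻¹ • bar k y) = - d k (s⁻¹ • y) := by
    intro s k y
    rw [← h3, hodd]
  have hval : ∀ (s : Γ) y, d i (s⁻¹ • y) =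
      (Pi.single (s • x) c - Pi.single (bar i (s • x)) c : Ω i → ℤ) y := by
    intro s y
    rw [hd]
    simp only [Pi.sub_apply, Pi.single_apply, inv_smul_eq_iff, h3]
  have hstab : ∀ j, d₀ j ≠ 0 → ∀ s : Γ, s • x = x ↔ ∀ y, d j (s⁻¹ • y) = d j y := by
    intro j hj s
    constructor
    · intro hs
      have h := hzero ((fun k y => d k (s⁻¹ • y)) - d) (R.sub_mem (htR s) hdR) (by
        intro k y
        simp only [Pi.sub_apply]
        rw [htodd, hodd]
        ring) (by
        intro k hk
        funext y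
        simp [hsub k hk]) i hi (by
        funext y
        simp only [Pi.sub_apply, Pi.zero_apply]
        rw [hval, hs, hd, sub_self])
      intro y
      have h' := congrFun (congrFun h j) y
      simp only [Pi.sub_apply, Pi.zero_apply] at h'
      linarith
    · intro hs
      have h := hzero ((fun k y => d k (s⁻¹ • y)) - d) (R.sub_mem (htR s) hdR) (by
        intro k y
        simp only [Pi.sub_apply]
        rw [htodd, hodd]
        ring) (by
        intro k hk
        funext y
        simp [hsub k hk]) j hj (by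
        funext y
        simp only [Pi.sub_apply, Pi.zero_apply]
        rw [hs, sub_self])
      have h' := congrFun (congrFun h i) x
      simp only [Pi.sub_apply, Pi.zero_apply] at h'
      rw [hval, hd] at h'
      simp only [Pi.sub_apply, Pi.single_eq_same, Pi.single_eq_of_ne (h2 i x).symm] at h'
      by_contra hsx
      rw [Pi.single_eq_of_ne (Ne.symm hsx)] at h'
      by_cases hb : x = bar i (s • x)
      · rw [← hb, Pi.single_eq_same] at h'
        omega
      · rw [Pi.single_eq_of_ne hb] at h'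
        omega
  have hstab' : ∀ j, d₀ j ≠ 0 → ∀ s : Γ, s • x = x ↔ ∀ y, d j (s • y) = d j y := by
    intro j hj s
    rw [hstab j hj]
    constructor
    · intro h y
      have h' := h (s • y)
      rw [inv_smul_smul] at h'
      exact h'.symm
    · intro h y
      have h' := h (s⁻¹ • y)
      rw [smul_inv_smul] at h'
      exact h'.symm
  -- the orbit of the component
  have horb : ∀ j, d₀ j ≠ 0 → (Set.range (fun s : Γ => fun y => d j (s⁻¹ • y))).ncard ≤
      Fintype.card (Ω i) := by
    intro j hj
    let G : Ω i → (Ω j → ℤ) := fun z =>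
      if h : ∃ s : Γ, s • x = z then (fun y => d j ((Classical.choose h)⁻¹ • y)) else 0
    have hsubG : Set.range (fun s : Γ => fun y => d j (s⁻¹ • y)) ⊆ G '' Set.univ := by
      rintro _ ⟨s, rfl⟩
      refine ⟨s • x, Set.mem_univ _, ?_⟩
      have hex : ∃ s' : Γ, s' • x = s • x := ⟨s, rfl⟩
      simp only [G, dif_pos hex]
      have hs' := Classical.choose_spec hex
      set s' := Classical.choose hex with hs'def
      have h := (hstab j hj (s'⁻¹ * s)).1 (by rw [mul_smul, ← hs', inv_smul_smul])
      funext y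
      have h' := h (s'⁻¹ • y)
      rw [mul_inv_rev, inv_inv, mul_smul, smul_inv_smul] at h'
      exact h'.symm
    calc (Set.range (fun s : Γ => fun y => d j (s⁻¹ • y))).ncard
        ≤ (G '' Set.univ).ncard := Set.ncard_le_ncard hsubG (Set.toFinite _)
      _ ≤ (Set.univ : Set (Ω i)).ncard := Set.ncard_image_le (Set.toFinite _)
      _ = Fintype.card (Ω i) := by rw [Set.ncard_univ, Nat.card_eq_fintype_card]
  -- the two cases
  have hcase : ∀ j, d₀ j ≠ 0 → ∃ (c : ℤ) (B : Finset (Ω j)), c ≠ 0 ∧ (B.card = 1 ∨ B.card = 2) ∧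
      (∀ b ∈ B, bar j b ∉ B ∧ d j b = c ∧ d j (bar j b) = -c) ∧
      (∀ z, z ∉ B → bar j z ∉ B → d j z = 0) := by
    intro j hj
    have hcard : Fintype.card (Ω i) ≤ Fintype.card (Ω j) := hcardmin j ((hmem _ _).2 hj)
    rcases hORB4 Γ (Ω j) (bar j) (d j) (h1 j) (h2 j) (fun s y => h3 j s y) (htr j) (hfl j)
      (fun y => hodd j y) (hw0 j hj) ((horb j hj).trans hcard) with
      ⟨y, hy, hy'⟩ | ⟨y, z, hzy, hzy', hy, hwz, hrest⟩
    · refine ⟨d j y, {y}, hy, Or.inl (Finset.card_singleton y), ?_, ?_⟩
      · intro b hb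
        rw [Finset.mem_singleton] at hb
        subst hb
        exact ⟨fun h => h2 j b (Finset.mem_singleton.1 h), rfl, hodd j b⟩
      · intro z hz hz'
        rw [Finset.mem_singleton] at hz hz'
        exact hy' z hz (fun h => hz' (by rw [h, h1]))
    · refine ⟨d j y, {y, z}, hy, Or.inr (Finset.card_pair (Ne.symm hzy)), ?_, ?_⟩
      · intro b hb
        rw [Finset.mem_insert, Finset.mem_singleton] at hb
        rcases hb with rfl | rfl
        · refine ⟨?_, rfl, hodd j b⟩
          rw [Finset.mem_insert, Finset.mem_singleton]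
          rintro (h | h)
          · exact h2 j b h
          · exact hzy' h.symm
        · refine ⟨?_, hwz, by rw [hodd, hwz]⟩
          rw [Finset.mem_insert, Finset.mem_singleton]
          rintro (h | h)
          · exact hzy' (by rw [← h, h1])
          · exact h2 j b h
      · intro u hu hu'
        rw [Finset.mem_insert, Finset.mem_singleton] at hu hu'
        push Not at hu hu'
        exact hrest u hu.1 (fun h => hu'.1 (by rw [h, h1])) hu.2 (fun h => hu'.2 (by rw [h, h1]))
  choose! c' B hc' hBcard hBmem hBout using hcase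
  -- stabilisers
  have hBst : ∀ j, d₀ j ≠ 0 → ∀ s : Γ, s • x = x ↔ ∀ b ∈ B j, s • b ∈ B j := by
    intro j hj s
    have hchar : ∀ z, z ∈ B j ↔ d j z = c' j := by
      intro z
      constructor
      · intro hz
        exact (hBmem j hj z hz).2.1
      · intro hz
        by_contra hzB
        by_cases hz' : bar j z ∈ B j
        · have h7 := (hBmem j hj _ hz').2.2
          rw [h1, hz] at h7
          have := hc' j hj
          omega
        · have h7 := hBout j hj z hzB hz'
          rw [hz] at h7
          exact hc' j hj h7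
    rw [hstab' j hj]
    constructor
    · intro h b hb
      rw [hchar, h b, ← hchar]
      exact hb
    · intro h
      -- `s` maps `B j` onto itself
      have himg : (B j).image (fun b => s • b) = B j := by
        apply Finset.eq_of_subset_of_card_le
        · intro u hu
          obtain ⟨b, hb, rfl⟩ := Finset.mem_image.1 hu
          exact h b hb
        · rw [Finset.card_image_of_injective _ (MulAction.injective s)]
      have hiff : ∀ u, s • u ∈ B j ↔ u ∈ B j := by
        intro u
        constructor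
        · intro hu
          rw [← himg] at hu
          obtain ⟨b, hb, hbu⟩ := Finset.mem_image.1 hu
          rw [← MulAction.injective s hbu]
          exact hb
        · exact h u
      intro u
      by_cases hu : u ∈ B j
      · rw [(hBmem j hj u hu).2.1, (hBmem j hj _ ((hiff u).2 hu)).2.1]
      · by_cases hu' : bar j u ∈ B j
        · have e1 := (hBmem j hj _ hu').2.2
          have e2 := (hBmem j hj _ ((hiff _).2 hu')).2.2
          rw [h1] at e1
          rw [← h3, h1] at e2
          rw [e1, e2]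
        · rw [hBout j hj u hu hu', hBout j hj (s • u) (fun h' => hu ((hiff u).1 h')) (fun h' => by
            rw [h3] at h'
            exact hu' ((hiff _).1 h'))]
  -- the index `i`
  have hBi : (B i).card = 1 := by
    obtain ⟨b, hb⟩ : (B i).Nonempty := by
      rw [← Finset.card_pos]
      rcases hBcard i hi with h | h <;> omega
    have hsup : ∀ u ∈ B i, u = x ∨ u = bar i x := by
      intro u hu
      by_contra hcon
      push Not at hcon
      have e1 := (hBmem i hi u hu).2.1
      rw [hd] at e1
      simp only [Pi.sub_apply, Pi.single_eq_of_ne hcon.1, Pi.single_eq_of_ne hcon.2, sub_self] at e1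
      exact hc' i hi e1.symm
    rcases hBcard i hi with h | h
    · exact h
    · exfalso
      obtain ⟨u, u', huu, hBu⟩ := Finset.card_eq_two.1 h
      have hu : u ∈ B i := by rw [hBu]; exact Finset.mem_insert_self _ _
      have hu' : u' ∈ B i := by rw [hBu]; exact Finset.mem_insert_of_mem (Finset.mem_singleton_self _)
      rcases hsup u hu with e1 | e1 <;> rcases hsup u' hu' with e2 | e2
      · exact huu (e1.trans e2.symm)
      · apply (hBmem i hi u hu).1
        rw [e1, ← e2]
        exact hu'
      · apply (hBmem i hi u' hu').1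
        rw [e2, ← e1]
        exact hu
      · exact huu (e1.trans e2.symm)
  refine ⟨supp d₀, i, d, c', B, hiI, hdR, hBi, fun j hj => ?_, fun j hj => ?_, fun j hj k hk s => ?_⟩
  · by_contra hne
    exact hj ((hmem _ _).2 (fun h => hne (hsub j h)))
  · have hj0 := (hmem _ _).1 hj
    exact ⟨hc' j hj0, hBcard j hj0, hBmem j hj0, hBout j hj0⟩
  · rw [← hBst j ((hmem _ _).1 hj), ← hBst k ((hmem _ _).1 hk)]

end Pool.Agent.TJ4
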