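import Pool.Agent.TJ4.St
import Pool.Agent.TJ2.OMB
import Pool.Agent.TJ2.EMB
import Pool.Agent.TJ2.SING

/-!
# Project TJ4, module IND34: partners in lists (MP_3af9db_ag)
-/

open Polynomial IntermediateField

namespace Pool.Agent.TJ4

open Pool.Agent.TJ2 Pool.Agent.TJ3

noncomputable section

/-- the absolute value of a product -/
lemma IND34_norm {q : ℕ} (hq : 1 ≤ q) (ι : Qb →+* ℂ) (l : List Qb)
    (hl : ∀ a ∈ l, ∃ h ∈ FL q, a ∈ Om q h) :
    ‖ι l.prod‖ ^ 2 = (q : ℝ) ^ l.length := by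
  induction l with
  | nil => simp
  | cons a l ih =>
    obtain ⟨h, hh, ha⟩ := hl a List.mem_cons_self
    have h1 := (t_EMB h.natDegree q h hq hh.2.1 a ha ι).1
    rw [List.prod_cons, map_mul, norm_mul, mul_pow, h1,
      ih fun b hb => hl b (List.mem_cons_of_mem _ hb), List.length_cons, pow_succ']

lemma IND34_bar {q : ℕ} (l : List Qb) (hl : ∀ a ∈ l, a ≠ 0) :
    l.prod * (l.map fun a => (q : Qb) / a).prod = (q : Qb) ^ l.length := by
  induction l with
  | nil => simp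
  | cons a l ih =>
    have ha : a ≠ 0 := hl a List.mem_cons_self
    have h1 := ih fun b hb => hl b (List.mem_cons_of_mem _ hb)
    rw [List.prod_cons, List.map_cons, List.prod_cons, List.length_cons, pow_succ', ← h1]
    field_simp

/-- a relation `(∏ a) ^ N = q ^ k` gives `(∏ a) ^ N = (∏ (q / a)) ^ N` -/
lemma IND34_sym {q : ℕ} (hq : 2 ≤ q) (l : List Qb) (hl : ∀ a ∈ l, ∃ h ∈ FL q, a ∈ Om q h)
    (N : ℕ) (k : ℤ) (he : l.prod ^ N = (q : Qb) ^ k) :
    l.prod ^ N = ((l.map fun a => (q : Qb) / a).prod) ^ N := by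
  have hq1 : 1 ≤ q := by omega
  obtain ⟨ι⟩ := SING_emb
  have h1 := IND34_norm hq1 ι l hl
  have h2 : (q : ℝ) ^ (l.length * N) = (q : ℝ) ^ (2 * k) := by
    rw [pow_mul, ← h1, ← pow_mul, mul_comm 2 N, pow_mul, ← norm_pow, ← map_pow, he, map_zpow₀,
      map_natCast, norm_zpow, Complex.norm_natCast, mul_comm 2 k, zpow_mul, zpow_ofNat]
  have hqR : (1 : ℝ) < q := by exact_mod_cast (by omega : 1 < q)
  have h3 : ((l.length * N : ℕ) : ℤ) = 2 * k := by
    rw [← zpow_natCast] at h2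
    exact zpow_right_injective₀ (by linarith) hqR.ne' h2
  have hq0 : (q : Qb) ≠ 0 := by
    have : q ≠ 0 := by omega
    exact_mod_cast this
  have h4 := IND34_bar (q := q) l fun a ha => by
    obtain ⟨h, -, hh⟩ := hl a ha
    exact hh.1
  have h5 : l.prod ^ N * ((l.map fun a => (q : Qb) / a).prod) ^ N = (q : Qb) ^ k * (q : Qb) ^ k := by
    rw [← mul_pow, h4, ← pow_mul, ← zpow_natCast, h3, ← zpow_add₀ hq0, two_mul]
  rw [he] at h5 ⊢
  exact (mul_left_cancel₀ (zpow_ne_zero k hq0) h5).symm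

open Classical in
/-- the double sum -/
lemma IND34_sum (q : ℕ) (v : AbsoluteValue Qb ℝ) {n : ℕ} (h : Fin n → ℤ[X]) (A : Fin n → Finset Qb)
    (hinj : ∀ i j, h i = h j → i = j) (ρ : ℤ[X] × Qb → ℤ[X]) (b : ℤ[X] × Qb → Qb)
    (σ : Qb ≃ₐ[ℚ] Qb) (L : List (ℤ[X] × Qb))
    (hL : ∀ z ∈ L, ∃ i, ρ z = h i ∧ b z ∈ A i) :
    ∑ i, ∑ a ∈ A i, (((L.map fun z => if ρ z = h i ∧ b z = a then (1 : ℤ) else 0).sum : ℤ) : ℝ) *
      slp q v a σ = (L.map fun z => slp q v (b z) σ).sum := by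
  induction L with
  | nil => simp
  | cons z L ih =>
    have h1 := ih fun y hy => hL y (List.mem_cons_of_mem _ hy)
    obtain ⟨i, hi, hb⟩ := hL z List.mem_cons_self
    have h2 : ∑ j, ∑ a ∈ A j, ((if ρ z = h j ∧ b z = a then (1 : ℤ) else 0 : ℤ) : ℝ) * slp q v a σ =
        slp q v (b z) σ := by
      rw [Finset.sum_eq_single i]
      · rw [Finset.sum_eq_single (b z)]
        · rw [if_pos ⟨hi, rfl⟩]
          simp
        · intro a _ ha
          rw [if_neg fun h => ha h.2.symm]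
          simp
        · intro h
          exact absurd hb h
      · intro j _ hj
        refine Finset.sum_eq_zero fun a _ => ?_
        rw [if_neg fun h' => hj (hinj j i (h'.1.symm.trans hi))]
        simp
      · intro h
        exact absurd (Finset.mem_univ i) h
    rw [List.map_cons, List.sum_cons, ← h1, ← h2, ← Finset.sum_add_distrib]
    refine Finset.sum_congr rfl fun j _ => ?_
    rw [← Finset.sum_add_distrib]
    refine Finset.sum_congr rfl fun a _ => ?_
    rw [List.map_cons, List.sum_cons]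
    push_cast
    ring

theorem IND34_partner (hIND44 : S_IND44) (hVAL4 : S_VAL4) (hGIS4 : S_GIS4)
    (q : ℕ) (v : AbsoluteValue Qb ℝ) (S : Set ℤ[X]) (hq : IsPrimePow q) (hv : Ab q v)
    (hS : S ⊆ FL q) (hC : Cr q v S) (l : List (ℤ[X] × Qb)) (x : ℤ[X] × Qb) (hx1 : x.1 ∈ S)
    (hx2 : x.2 ∈ Om q x.1) (hl : ∀ y ∈ l, y.1 ∈ S ∧ y.2 ∈ Om q y.1) (N : ℕ) (k : ℤ) (hN : 1 ≤ N)
    (he : (x.2 * (l.map Prod.snd).prod) ^ N = (q : Qb) ^ k) :
    ∃ y ∈ l, ∃ M : ℕ, 1 ≤ M ∧ (x.2 * y.2) ^ M = (q : Qb) ^ M := by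
  classical
  have hq2 : 2 ≤ q := hq.two_le
  have hq1 : 1 ≤ q := hq.pos
  have hq0 : (q : Qb) ≠ 0 := by
    have : q ≠ 0 := by omega
    exact_mod_cast this
  obtain ⟨-, hom, -, -, hrefl, hsymm, htrans, htrf⟩ := hGIS4 q hq
  set L : List (ℤ[X] × Qb) := x :: l with hLdef
  have hL : ∀ z ∈ L, z.1 ∈ S ∧ z.2 ∈ Om q z.1 := by
    intro z hz
    rcases List.mem_cons.1 hz with rfl | hz
    · exact ⟨hx1, hx2⟩
    · exact hl z hz
  have hL' : ∀ a ∈ L.map Prod.snd, ∃ h ∈ FL q, a ∈ Om q h := by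
    intro a ha
    obtain ⟨z, hz, rfl⟩ := List.mem_map.1 ha
    exact ⟨z.1, hS (hL z hz).1, (hL z hz).2⟩
  have hprod : (L.map Prod.snd).prod ^ N = (q : Qb) ^ k := by
    rw [hLdef, List.map_cons, List.prod_cons]
    exact he
  have hsym := IND34_sym hq2 (L.map Prod.snd) hL' N k hprod
  let s : Setoid {h : ℤ[X] // h ∈ S} :=
    { r := fun u v => GIso q u.1 v.1
      iseqv := ⟨fun u => hrefl _ (hS u.2), fun huv => hsymm _ _ huv,
        fun {u v w} huv hvw => htrans _ (hS u.2) _ (hS v.2) _ (hS w.2) huv hvw⟩ }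
  let rp : ℤ[X] → ℤ[X] := fun u =>
    if hu : u ∈ S then (Quotient.out (Quotient.mk s ⟨u, hu⟩)).1 else u
  have hrp : ∀ u, u ∈ S → rp u ∈ S ∧ GIso q u (rp u) := by
    intro u hu
    have h1 : rp u = (Quotient.out (Quotient.mk s ⟨u, hu⟩)).1 := dif_pos hu
    rw [h1]
    exact ⟨Subtype.property _, hsymm _ _ (Quotient.mk_out (s := s) ⟨u, hu⟩)⟩
  have hrp2 : ∀ u v, u ∈ S → v ∈ S → GIso q u v → rp u = rp v := by
    intro u v hu hv huv
    have h1 : rp u = (Quotient.out (Quotient.mk s ⟨u, hu⟩)).1 := dif_pos hu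
    have h2 : rp v = (Quotient.out (Quotient.mk s ⟨v, hv⟩)).1 := dif_pos hv
    have h3 : Quotient.mk s ⟨u, hu⟩ = Quotient.mk s ⟨v, hv⟩ := Quotient.sound (s := s) huv
    rw [h1, h2, h3]
  let R : Finset ℤ[X] := (L.map fun z => rp z.1).toFinset
  have hR : ∀ u, u ∈ R ↔ ∃ z ∈ L, rp z.1 = u := by
    intro u
    rw [List.mem_toFinset, List.mem_map]
  have hRS : ∀ u ∈ R, u ∈ S := by
    intro u hu
    obtain ⟨z, hz, rfl⟩ := (hR u).1 hu
    exact (hrp z.1 (hL z hz).1).1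
  have hRiso : ∀ u ∈ R, ∀ v ∈ R, GIso q u v → u = v := by
    intro u hu v hv huv
    obtain ⟨z, hz, rfl⟩ := (hR u).1 hu
    obtain ⟨y, hy, rfl⟩ := (hR v).1 hv
    have h1 := hrp z.1 (hL z hz).1
    have h2 := hrp y.1 (hL y hy).1
    refine hrp2 _ _ (hL z hz).1 (hL y hy).1 ?_
    exact htrans _ (hS (hL z hz).1) _ (hS h1.1) _ (hS (hL y hy).1) h1.2
      (htrans _ (hS h1.1) _ (hS h2.1) _ (hS (hL y hy).1) huv (hsymm _ _ h2.2))
  let e : Fin R.card ≃ R := R.equivFin.symm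
  -- transfer
  have hb : ∀ z : ℤ[X] × Qb, ∃ (a : Qb) (M : ℕ), z ∈ L → a ∈ Om q (rp z.1) ∧ 1 ≤ M ∧
      z.2 ^ M = a ^ M := by
    intro z
    by_cases hz : z ∈ L
    · obtain ⟨a, ha, M, hM, h1⟩ := htrf z.1 (hS (hL z hz).1) (rp z.1)
        (hS (hrp z.1 (hL z hz).1).1) (hrp z.1 (hL z hz).1).2 z.2 (hL z hz).2
      exact ⟨a, M, fun _ => ⟨ha, hM, h1⟩⟩
    · exact ⟨0, 0, fun h => absurd h hz⟩
  choose b Mz hbM using hb
  obtain ⟨M, hM, hbM'⟩ : ∃ M : ℕ, 1 ≤ M ∧ ∀ z ∈ L, z.2 ^ M = b z ^ M := by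
    refine ⟨∏ z ∈ L.toFinset, Mz z, ?_, ?_⟩
    · refine Nat.one_le_iff_ne_zero.2 (Finset.prod_ne_zero_iff.2 fun z hz => ?_)
      have := (hbM z (List.mem_toFinset.1 hz)).2.1
      omega
    · intro z hz
      obtain ⟨c, hc⟩ := Finset.dvd_prod_of_mem Mz (List.mem_toFinset.2 hz)
      rw [hc, pow_mul, (hbM z hz).2.2, ← pow_mul]
  have hbO : ∀ a ∈ L.map b, ∃ h ∈ FL q, a ∈ Om q h := by
    intro a ha
    obtain ⟨z, hz, rfl⟩ := List.mem_map.1 ha
    exact ⟨rp z.1, hS (hrp z.1 (hL z hz).1).1, (hbM z hz).1⟩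
  have hpr : ∀ L' : List (ℤ[X] × Qb), (∀ z ∈ L', z ∈ L) →
      ((L'.map b).prod) ^ M = ((L'.map Prod.snd).prod) ^ M := by
    intro L'
    induction L' with
    | nil => simp
    | cons z L' ih =>
      intro h
      rw [List.map_cons, List.prod_cons, List.map_cons, List.prod_cons, mul_pow, mul_pow,
        ih fun y hy => h y (List.mem_cons_of_mem _ hy), hbM' z (h z List.mem_cons_self)]
  have hbrel : (L.map b).prod ^ (M * N) = (q : Qb) ^ (k * M) := by
    rw [pow_mul, hpr L fun z hz => hz, ← pow_mul, mul_comm M N, pow_mul, hprod, zpow_mul,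
      zpow_natCast]
  have hbsym := IND34_sym hq2 (L.map b) hbO (M * N) (k * M) hbrel
  have hsgn := hVAL4 q v hq hv (L.map b) (fun a ha => by
    obtain ⟨h, -, hh⟩ := hbO a ha
    exact hh.1) (M * N) (Nat.mul_pos hM hN) hbsym
  have hmem : ∀ z ∈ L, ∃ i : Fin R.card, rp z.1 = e i := by
    intro z hz
    refine ⟨e.symm ⟨rp z.1, (hR _).2 ⟨z, hz, rfl⟩⟩, ?_⟩
    rw [Equiv.apply_symm_apply]
  have hfin : ∀ u ∈ R, (Om q u).Finite := fun u hu =>
    (hom u (hS (hRS u hu))).1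
  let A : Fin R.card → Finset Qb := fun i => (hfin (e i) (e i).2).toFinset
  have hA : ∀ i, (A i : Set Qb) = Om q (e i) := fun i => Set.Finite.coe_toFinset _
  have hAm : ∀ i a, a ∈ A i ↔ a ∈ Om q (e i) := by
    intro i a
    rw [← hA i, Finset.mem_coe]
  have hinj : ∀ i j : Fin R.card, ((e i : R) : ℤ[X]) = e j → i = j := fun i j hij =>
    e.injective (Subtype.ext hij)
  have h4 := hIND44 q v S hq hv hS hC R.card (fun i => (e i : ℤ[X])) A
    (fun i a => (L.map fun z => if rp z.1 = e i ∧ b z = a then (1 : ℤ) else 0).sum)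
    (fun i => hRS _ (e i).2)
    (fun i j hij hG => hij (hinj i j (hRiso _ (e i).2 _ (e j).2 hG))) hA (by
      intro σ
      have h5 := IND34_sum q v (fun i => ((e i : R) : ℤ[X])) A hinj (fun z => rp z.1) b σ L (by
        intro z hz
        obtain ⟨i, hi⟩ := hmem z hz
        refine ⟨i, hi, ?_⟩
        rw [hAm, ← hi]
        exact (hbM z hz).1)
      rw [h5]
      have h6 := hsgn σ
      rw [List.map_map] at h6
      exact h6)
  have hxL : x ∈ L := List.mem_cons_self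
  obtain ⟨i, hi⟩ := hmem x hxL
  have hbx : b x ∈ A i := by
    rw [hAm, ← hi]
    exact (hbM x hxL).1
  have h5 := h4 i (b x) hbx
  have hnn : ∀ (a : Qb) (L' : List (ℤ[X] × Qb)),
      0 ≤ (L'.map fun z => if rp z.1 = e i ∧ b z = a then (1 : ℤ) else 0).sum := by
    intro a L'
    refine List.sum_nonneg fun c hc => ?_
    obtain ⟨z, -, rfl⟩ := List.mem_map.1 hc
    split_ifs <;> norm_num
  have h6 : 1 ≤ (L.map fun z => if rp z.1 = e i ∧ b z = b x then (1 : ℤ) else 0).sum := by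
    rw [hLdef, List.map_cons, List.sum_cons, if_pos ⟨hi, rfl⟩]
    have := hnn (b x) l
    linarith
  beta_reduce at h5
  rw [← h5] at h6
  obtain ⟨z, hz, hz1⟩ : ∃ z ∈ L, rp z.1 = e i ∧ b z = (q : Qb) / b x := by
    by_contra hcon
    push Not at hcon
    have h7 : (L.map fun z => if rp z.1 = e i ∧ b z = (q : Qb) / b x then (1 : ℤ) else 0).sum
        = 0 := by
      refine List.sum_eq_zero fun c hc => ?_
      obtain ⟨z, hz, rfl⟩ := List.mem_map.1 hc
      rw [if_neg fun h => hcon z hz h.1 h.2]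
    omega
  have hbxO := (hbM x hxL).1
  have hne : b x ≠ (q : Qb) / b x :=
    (((hom (rp x.1) (hS (hrp x.1 hx1).1)).2.2.1 (b x) hbxO).2.2.2).symm
  have hzl : z ∈ l := by
    rcases List.mem_cons.1 hz with h8 | h8
    · exact absurd (h8 ▸ hz1.2) hne
    · exact h8
  refine ⟨z, hzl, M, hM, ?_⟩
  have hb0 : b x ≠ 0 := hbxO.1
  rw [mul_pow, hbM' x hxL, hbM' z hz, hz1.2, ← mul_pow]
  congr 1
  field_simp

theorem t_IND34 (hIND44 : S_IND44) (hVAL4 : S_VAL4) (hGIS4 : S_GIS4) : S_IND34 := by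
  intro q v S hq hv hS hC l
  have hq0 : (q : Qb) ≠ 0 := by
    have : q ≠ 0 := by
      have := hq.one_lt
      omega
    exact_mod_cast this
  induction hn : l.length using Nat.strong_induction_on generalizing l with
  | _ n ih =>
    intro x hx1 hx2 hl N k hN he
    obtain ⟨y, hy, M, hM, hyM⟩ := IND34_partner hIND44 hVAL4 hGIS4 q v S hq hv hS hC l x hx1 hx2 hl
      N k hN he
    refine ⟨⟨y, hy, M, hM, hyM⟩, ?_⟩
    obtain ⟨s, t, rfl⟩ := List.append_of_mem hy
    have hrest : ((s ++ t).map Prod.snd).prod ^ (N * M) = (q : Qb) ^ (k * M - N * M : ℤ) := by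
      have h1 : (x.2 * y.2) ^ (N * M) * ((s ++ t).map Prod.snd).prod ^ (N * M) =
          (q : Qb) ^ (k * M : ℤ) := by
        rw [← mul_pow, zpow_mul, zpow_natCast, ← he, ← pow_mul]
        congr 1
        rw [List.map_append, List.prod_append, List.map_append, List.prod_append, List.map_cons,
          List.prod_cons]
        ring
      have h2 : (x.2 * y.2) ^ (N * M) = (q : Qb) ^ (N * M : ℤ) := by
        rw [mul_comm N M, pow_mul, hyM, ← pow_mul, mul_comm M N, ← Nat.cast_mul, zpow_natCast]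
      rw [h2] at h1
      rw [zpow_sub₀ hq0, eq_div_iff (zpow_ne_zero _ hq0), mul_comm]
      exact h1
    have hlen : (s ++ y :: t).length = (s ++ t).length + 1 := by
      rw [List.length_append, List.length_cons, List.length_append]
      omega
    rw [← hn, hlen]
    cases hst : s ++ t with
    | nil => simp
    | cons x' l' =>
      have hmem : ∀ z ∈ x' :: l', z.1 ∈ S ∧ z.2 ∈ Om q z.1 := by
        intro z hz
        rw [← hst] at hz
        apply hl
        rcases List.mem_append.mp hz with h | h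
        · exact List.mem_append.mpr (Or.inl h)
        · exact List.mem_append.mpr (Or.inr (List.mem_cons_of_mem _ h))
      rw [hst, List.map_cons, List.prod_cons] at hrest
      have hlt : l'.length < n := by
        rw [← hn, hlen, hst, List.length_cons]
        omega
      have h3 := (ih l'.length hlt l' rfl x' (hmem x' List.mem_cons_self).1
        (hmem x' List.mem_cons_self).2 (fun z hz => hmem z (List.mem_cons_of_mem _ hz)) (N * M)
        (k * M - N * M) (Nat.mul_pos hN hM) hrest).2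
      rw [List.length_cons]
      obtain ⟨c, hc⟩ := h3
      exact ⟨c + 1, by omega⟩

end

end Pool.Agent.TJ4
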