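import Pool.Agent.TJ4.St

/-!
# IND44: under the criterion there are only trivial relations
-/

set_option autoImplicit false

open Polynomial IntermediateField

namespace Pool.Agent.TJ4

open Pool.Agent.TJ2 Pool.Agent.TJ3

theorem t_IND44 (hREL4 : S_REL4) : S_IND44 := by
  classical
  intro q v S hq hv hS hC n h A m hhS hiso hA hrel
  by_contra hne
  push Not at hne
  obtain ⟨J, i₀, c, B, hi₀, hB₀, hJ, hfd, hsum⟩ :=
    hREL4 q v hq hv n h A m (fun i => hS (hhS i)) hA hrel hne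
  let e : Fin J.card ≃ J := J.equivFin.symm
  have hlin := hC J.card (fun k => h (e k).1) (fun k => B (e k).1)
    (fun k => ⟨hhS _, (hJ _ (e k).2).2⟩) ⟨e.symm ⟨i₀, hi₀⟩, by
      rw [Equiv.apply_symm_apply]
      exact hB₀⟩ (fun i j => hfd _ (e i).2 _ (e j).2)
    (fun i j hij => hiso _ _ (fun h1 => hij (e.injective (Subtype.ext h1))))
  rw [Fintype.linearIndependent_iff] at hlin
  have h1 := hlin (fun k => (c (e k).1 : ℚ)) (by
    funext σ
    rw [Finset.sum_apply, Pi.zero_apply]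
    have h2 : ∑ k : Fin J.card, ((c (e k).1 : ℚ) •
        (fun σ : Qb ≃ₐ[ℚ] Qb => ∑ b ∈ B (e k).1, slp q v b σ)) σ =
        ∑ i ∈ J, (c i : ℝ) * ∑ b ∈ B i, slp q v b σ := by
      rw [← Finset.sum_coe_sort J (fun i => (c i : ℝ) * ∑ b ∈ B i, slp q v b σ),
        ← Equiv.sum_comp e]
      refine Finset.sum_congr rfl fun k _ => ?_
      rw [Pi.smul_apply, Rat.smul_def]
      push_cast
      rfl
    rw [h2]
    exact hsum σ) (e.symm ⟨i₀, hi₀⟩)
  rw [Equiv.apply_symm_apply] at h1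
  exact (hJ i₀ hi₀).1 (by exact_mod_cast h1)

end Pool.Agent.TJ4
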