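import Pool.Agent.TJ4.St
import Pool.Agent.TJ2.ORB

/-!
# Module ORB4: orbit sizes of odd functions for groups containing the flips of the single pairs
-/

namespace Pool.Agent.TJ4

open Pool.Agent.TJ2 Pool.Agent.TJ3

namespace ORB4_aux

/-- all sign changes are induced by the group -/
theorem flips {Γ Ω : Type} [Group Γ] [DecidableEq Ω] [MulAction Γ Ω] {bar : Ω → Ω}
    (hbb : ∀ x, bar (bar x) = x) (hbs : ∀ (s : Γ) x, bar (s • x) = s • bar x)
    (hfl : ∀ x : Ω, ∃ s : Γ, s • x = bar x ∧ ∀ y, y ≠ x → y ≠ bar x → s • y = y)
    (A : Finset Ω) : ∃ s : Γ, ∀ x, s • x = ORB_flip bar A x := by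
  induction A using Finset.induction_on with
  | empty =>
    refine ⟨1, fun x => ?_⟩
    unfold ORB_flip
    simp
  | insert a A ha ih =>
    obtain ⟨s, hs⟩ := ih
    by_cases hb : bar a ∈ A
    · refine ⟨s, fun x => ?_⟩
      rw [hs]
      unfold ORB_flip
      by_cases h : x ∈ A ∨ bar x ∈ A
      · rw [if_pos h, if_pos (h.imp Finset.mem_insert_of_mem Finset.mem_insert_of_mem)]
      · rw [if_neg h, if_neg]
        rintro (h1 | h1)
        · rcases Finset.mem_insert.mp h1 with h2 | h2
          · exact h (Or.inr (h2 ▸ hb))
          · exact h (Or.inl h2)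
        · rcases Finset.mem_insert.mp h1 with h2 | h2
          · apply h
            left
            rw [← h2, hbb] at hb
            exact hb
          · exact h (Or.inr h2)
    · obtain ⟨s', h1, h2⟩ := hfl a
      have h3 : s' • bar a = a := by
        rw [← hbs, h1, hbb]
      refine ⟨s' * s, fun x => ?_⟩
      rw [mul_smul, hs]
      unfold ORB_flip
      by_cases h : x ∈ A ∨ bar x ∈ A
      · rw [if_pos h, if_pos (h.imp Finset.mem_insert_of_mem Finset.mem_insert_of_mem)]
        apply h2
        · intro e
          rcases h with h | h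
          · apply hb
            rw [← e, hbb]
            exact h
          · exact ha (e ▸ h)
        · intro e
          rcases h with h | h
          · exact ha (ORB_inj hbb e ▸ h)
          · exact hb (e ▸ h)
      · rw [if_neg h]
        by_cases e1 : x = a
        · subst e1
          rw [if_pos (Or.inl (Finset.mem_insert_self _ _)), h1]
        · by_cases e2 : x = bar a
          · subst e2
            rw [h3, if_pos, hbb]
            right
            rw [hbb]
            exact Finset.mem_insert_self _ _
          · rw [h2 x e1 e2, if_neg]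
            rintro (h4 | h4)
            · rcases Finset.mem_insert.mp h4 with h5 | h5
              · exact e1 h5
              · exact h (Or.inl h5)
            · rcases Finset.mem_insert.mp h4 with h5 | h5
              · apply e2
                rw [← h5, hbb]
              · exact h (Or.inr h5)

end ORB4_aux

open ORB4_aux in
theorem t_ORB4 : S_ORB4 := by
  classical
  intro Γ Ω _ _ _ _ bar w hbb hbne hbs htr hfl hodd hw hcard
  set O : Set (Ω → ℤ) := Set.range (fun s : Γ => fun x => w (s⁻¹ • x)) with hO
  have hfin : O.Finite := by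
    refine (Set.finite_range (fun τ : Equiv.Perm Ω => fun x => w (τ x))).subset ?_
    rintro _ ⟨s, rfl⟩
    exact ⟨MulAction.toPerm s⁻¹, rfl⟩
  set Of : Finset (Ω → ℤ) := hfin.toFinset with hOf
  have memO : ∀ f, f ∈ Of ↔ ∃ s : Γ, (fun x => w (s⁻¹ • x)) = f := by
    intro f
    rw [hOf, Set.Finite.mem_toFinset, hO]
    rfl
  have hcO : Of.card ≤ Fintype.card Ω := by
    rw [hOf, ← Set.ncard_eq_toFinset_card O hfin]
    exact hcard
  -- the positive part
  set S : Finset Ω := Finset.univ.filter (fun x => 0 < w x) with hS
  set M : Finset Ω := Finset.univ.filter (fun x => w x < 0) with hM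
  have memS : ∀ x, x ∈ S ↔ 0 < w x := fun x => by simp [hS]
  have memM : ∀ x, x ∈ M ↔ w x < 0 := fun x => by simp [hM]
  have hMS : M.card = S.card := by
    refine Finset.card_nbij' bar bar ?_ ?_ ?_ ?_
    · intro x hx
      have hx' := (memM x).mp hx
      refine Finset.mem_coe.mpr ((memS _).mpr ?_)
      rw [hodd]; omega
    · intro x hx
      have hx' := (memS x).mp hx
      refine Finset.mem_coe.mpr ((memM _).mpr ?_)
      rw [hodd]; omega
    · intro x _; exact hbb x
    · intro x _; exact hbb x
  have hsupp : (Finset.univ.filter (fun x => w x ≠ 0)).card = 2 * S.card := by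
    have h1 : Finset.univ.filter (fun x => w x ≠ 0) = S ∪ M := by
      ext x
      rw [Finset.mem_union, memS, memM]
      simp only [Finset.mem_filter, Finset.mem_univ, true_and]
      omega
    rw [h1, Finset.card_union_of_disjoint, hMS]
    · ring
    · rw [Finset.disjoint_left]
      intro x hx hx'
      rw [memS] at hx
      rw [memM] at hx'
      omega
  -- an element of the positive part
  obtain ⟨y, hy⟩ : ∃ y, 0 < w y := by
    obtain ⟨y0, hy0⟩ : ∃ y, w y ≠ 0 := by
      by_contra h
      push Not at h
      exact hw (funext h)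
    rcases lt_or_gt_of_ne hy0 with h | h
    · exact ⟨bar y0, by rw [hodd]; omega⟩
    · exact ⟨y0, h⟩
  -- the number of the functions which are not zero at a point
  set n : Ω → ℕ := fun x => (Of.filter fun f => f x ≠ 0).card with hn
  have hnle : ∀ x x', n x ≤ n x' := by
    intro x x'
    obtain ⟨s, hs⟩ := htr x x'
    refine Finset.card_le_card_of_injOn (fun f => fun t => f (s⁻¹ • t)) ?_ ?_
    · intro f hf
      have hf' := Finset.mem_filter.mp (Finset.mem_coe.mp hf)
      rw [Finset.mem_coe, Finset.mem_filter]
      constructor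
      · obtain ⟨r, hr⟩ := (memO f).mp hf'.1
        rw [memO]
        refine ⟨s * r, ?_⟩
        funext t
        rw [← hr]
        show w ((s * r)⁻¹ • t) = w (r⁻¹ • s⁻¹ • t)
        rw [mul_inv_rev, mul_smul]
      · show f (s⁻¹ • x') ≠ 0
        rw [← hs, inv_smul_smul]
        exact hf'.2
    · intro f _ f' _ h
      funext t
      have := congrFun h (s • t)
      simpa using this
  have hneq : ∀ x, n x = n y := fun x => le_antisymm (hnle x y) (hnle y x)
  have hcnt : Of.card * (2 * S.card) = Fintype.card Ω * n y := by
    have h1 : ∀ f ∈ Of, (Finset.univ.filter (fun x => f x ≠ 0)).card = 2 * S.card := by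
      intro f hf
      obtain ⟨s, rfl⟩ := (memO f).mp hf
      rw [← hsupp]
      refine Finset.card_nbij' (fun x => s⁻¹ • x) (fun x => s • x) ?_ ?_ ?_ ?_
      · intro x hx
        have := (Finset.mem_filter.mp (Finset.mem_coe.mp hx)).2
        rw [Finset.mem_coe, Finset.mem_filter]
        exact ⟨Finset.mem_univ _, this⟩
      · intro x hx
        have := (Finset.mem_filter.mp (Finset.mem_coe.mp hx)).2
        rw [Finset.mem_coe, Finset.mem_filter]
        refine ⟨Finset.mem_univ _, ?_⟩
        show w (s⁻¹ • s • x) ≠ 0
        rw [inv_smul_smul]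
        exact this
      · intro x _
        exact smul_inv_smul s x
      · intro x _
        exact inv_smul_smul s x
    calc Of.card * (2 * S.card) = ∑ _f ∈ Of, 2 * S.card := by
          rw [Finset.sum_const, smul_eq_mul]
      _ = ∑ f ∈ Of, (Finset.univ.filter (fun x => f x ≠ 0)).card :=
          Finset.sum_congr rfl fun f hf => (h1 f hf).symm
      _ = ∑ x : Ω, n x := by
          simp only [hn, Finset.card_filter]
          rw [Finset.sum_comm]
      _ = ∑ _x : Ω, n y := Finset.sum_congr rfl fun x _ => hneq x
      _ = Fintype.card Ω * n y := by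
          rw [Finset.sum_const, smul_eq_mul, Finset.card_univ]
  have hn2 : n y ≤ 2 * S.card := by
    have hpos : 0 < Fintype.card Ω := Fintype.card_pos_iff.mpr ⟨y⟩
    have h1 : Fintype.card Ω * n y ≤ Fintype.card Ω * (2 * S.card) := by
      rw [← hcnt]
      exact Nat.mul_le_mul_right _ hcO
    exact Nat.le_of_mul_le_mul_left h1 hpos
  -- sign changes
  let F : Finset Ω → Ω → ℤ := fun A x => w (ORB_flip bar A x)
  have h1 : ∀ A : Finset Ω, F A ∈ Of := by
    intro A
    obtain ⟨s, hs⟩ := flips hbb hbs hfl A
    rw [memO]
    refine ⟨s⁻¹, ?_⟩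
    funext x
    show w ((s⁻¹)⁻¹ • x) = w (ORB_flip bar A x)
    rw [inv_inv, hs]
  have hval : ∀ A ∈ S.powerset, ∀ x ∈ S, (x ∈ A ↔ F A x < 0) := by
    intro A hA x hx
    have hA' := Finset.mem_powerset.mp hA
    have hx' := (memS x).mp hx
    have hbx : bar x ∉ A := by
      intro h
      have := (memS _).mp (hA' h)
      rw [hodd] at this
      omega
    show x ∈ A ↔ w (ORB_flip bar A x) < 0
    unfold ORB_flip
    by_cases h : x ∈ A
    · rw [if_pos (Or.inl h), hodd]
      exact ⟨fun _ => by omega, fun _ => h⟩
    · rw [if_neg (by tauto)]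
      exact ⟨fun h' => absurd h' h, fun h' => by omega⟩
  have habs : ∀ A : Finset Ω, ∀ x, |F A x| = |w x| := by
    intro A x
    show |w (ORB_flip bar A x)| = |w x|
    unfold ORB_flip
    split_ifs
    · rw [hodd, abs_neg]
    · rfl
  have h2 : Set.InjOn F (S.powerset : Finset (Finset Ω)) := by
    intro A hA B hB hAB
    have hA' : A ∈ S.powerset := hA
    have hB' : B ∈ S.powerset := hB
    ext x
    constructor
    · intro hx
      have hxS := Finset.mem_powerset.mp hA' hx
      rw [hval B hB' x hxS, ← hAB, ← hval A hA' x hxS]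
      exact hx
    · intro hx
      have hxS := Finset.mem_powerset.mp hB' hx
      rw [hval A hA' x hxS, hAB, ← hval B hB' x hxS]
      exact hx
  have hsub : ∀ x ∈ S, S.powerset.image F ⊆ Of.filter (fun f => f x ≠ 0) := by
    intro x hx f hf
    obtain ⟨A, _, rfl⟩ := Finset.mem_image.mp hf
    rw [Finset.mem_filter]
    refine ⟨h1 A, ?_⟩
    intro h0
    have h3 := habs A x
    rw [h0, abs_zero] at h3
    have h4 := (memS x).mp hx
    rw [abs_of_pos h4] at h3
    omega
  have hcardF : (S.powerset.image F).card = 2 ^ S.card := by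
    rw [Finset.card_image_of_injOn h2, Finset.card_powerset]
  have hyS : y ∈ S := (memS y).mpr hy
  have hk1 : 2 ^ S.card ≤ n y := by
    rw [← hcardF]
    exact Finset.card_le_card (hsub y hyS)
  have hk2 : S.card ≤ 2 := ORB_arith2 (hk1.trans hn2)
  have hk0 : 1 ≤ S.card := Finset.card_pos.mpr ⟨y, hyS⟩
  have hcase : S.card = 1 ∨ S.card = 2 := by omega
  rcases hcase with hk | hk
  · left
    obtain ⟨y', hy'⟩ := Finset.card_eq_one.mp hk
    have hyy : y = y' := by
      rw [hy'] at hyS
      exact Finset.mem_singleton.mp hyS
    refine ⟨y, hy.ne', fun x h3 h4 => ?_⟩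
    by_contra h5
    rcases lt_or_gt_of_ne h5 with h | h
    · have h6 : bar x ∈ S := (memS _).mpr (by rw [hodd]; omega)
      rw [hy', Finset.mem_singleton, ← hyy] at h6
      apply h4
      rw [← h6, hbb]
    · have h6 : x ∈ S := (memS _).mpr h
      rw [hy', Finset.mem_singleton, ← hyy] at h6
      exact h3 h6
  · right
    -- the second element
    obtain ⟨z, hzS, hzy⟩ : ∃ z ∈ S, z ≠ y := by
      by_contra hcon
      push Not at hcon
      have : S ⊆ {y} := fun c hc => Finset.mem_singleton.mpr (hcon c hc)
      have := Finset.card_le_card this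
      rw [Finset.card_singleton] at this
      omega
    have hz := (memS z).mp hzS
    have hSe : S = {y, z} := by
      symm
      apply Finset.eq_of_subset_of_card_le
      · intro x hx
        rcases Finset.mem_insert.mp hx with h | h
        · rw [h]; exact hyS
        · rw [Finset.mem_singleton.mp h]; exact hzS
      · rw [hk, Finset.card_pair hzy.symm]
    have hzb : z ≠ bar y := by
      rintro rfl
      rw [hodd] at hz
      omega
    -- the functions which are not zero at z are the sign changes
    have hall : S.powerset.image F = Of.filter (fun f => f z ≠ 0) := by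
      apply Finset.eq_of_subset_of_card_le (hsub z hzS)
      have h3 : (Of.filter (fun f => f z ≠ 0)).card = n y := hneq z
      rw [h3, hcardF, hk]
      rw [hk] at hn2
      omega
    have hwzy : w z = w y := by
      obtain ⟨s, hs⟩ := htr y z
      have h3 : (fun x => w (s⁻¹ • x)) ∈ Of.filter (fun f => f z ≠ 0) := by
        rw [Finset.mem_filter]
        refine ⟨(memO _).mpr ⟨s, rfl⟩, ?_⟩
        show w (s⁻¹ • z) ≠ 0
        rw [← hs, inv_smul_smul]
        exact hy.ne'
      rw [← hall] at h3
      obtain ⟨A, _, hA⟩ := Finset.mem_image.mp h3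
      have h4 : F A z = w (s⁻¹ • z) := congrFun hA z
      rw [← hs, inv_smul_smul, hs] at h4
      have h5 := habs A z
      rw [h4, abs_of_pos hy, abs_of_pos hz] at h5
      exact h5.symm
    refine ⟨y, z, hzy, hzb, hy.ne', hwzy, fun x g1 g2 g3 g4 => ?_⟩
    by_contra h5
    rcases lt_or_gt_of_ne h5 with h | h
    · have h6 : bar x ∈ S := (memS _).mpr (by rw [hodd]; omega)
      rw [hSe, Finset.mem_insert, Finset.mem_singleton] at h6
      rcases h6 with h6 | h6
      · apply g2
        rw [← h6, hbb]
      · apply g4
        rw [← h6, hbb]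
    · have h6 : x ∈ S := (memS _).mpr h
      rw [hSe, Finset.mem_insert, Finset.mem_singleton] at h6
      rcases h6 with h6 | h6
      · exact g1 h6
      · exact g3 h6

end Pool.Agent.TJ4
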