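import Pool.Agent.TJ4.St
import Pool.Agent.TJ3.GAL

/-!
# REL4: from a relation between slope vectors to a minimal one
-/

set_option autoImplicit false

open Polynomial IntermediateField

namespace Pool.Agent.TJ4

open Pool.Agent.TJ2 Pool.Agent.TJ3

namespace REL4_aux

/-- the relations between the sign vectors -/
def R (q : ℕ) (v : AbsoluteValue Qb ℝ) {ι : Type} [Fintype ι] (A : ι → Finset Qb) :
    AddSubgroup (∀ i, (A i) → ℤ) where
  carrier := {d | ∀ σ : Qb ≃ₐ[ℚ] Qb, ∑ i, ∑ x : A i, (d i x : ℝ) * slp q v x.1 σ = 0}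
  zero_mem' := fun σ => by simp
  add_mem' := by
    intro a b ha hb σ
    have h1 := ha σ
    have h2 := hb σ
    simp only [Pi.add_apply, Int.cast_add, add_mul, Finset.sum_add_distrib]
    rw [h1, h2, add_zero]
  neg_mem' := by
    intro a ha σ
    have h1 := ha σ
    simp only [Pi.neg_apply, Int.cast_neg, neg_mul, Finset.sum_neg_distrib]
    rw [h1, neg_zero]

lemma mem_R (q : ℕ) (v : AbsoluteValue Qb ℝ) {ι : Type} [Fintype ι] (A : ι → Finset Qb) (d : ∀ i, (A i) → ℤ) :
    d ∈ R q v A ↔ ∀ σ : Qb ≃ₐ[ℚ] Qb, ∑ i, ∑ x : A i, (d i x : ℝ) * slp q v x.1 σ = 0 := Iff.rfl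

end REL4_aux

open REL4_aux in
theorem t_REL4 (hGRP4 : S_GRP4) (hSLP : S_SLP) (hGIS4 : S_GIS4) : S_REL4 := by
  classical
  intro q v hq hv n h A m hFL hA hrel hne0
  have hq1 : 1 ≤ q := hq.one_lt.le
  have hq0 : (q : Qb) ≠ 0 := by
    have : q ≠ 0 := by omega
    exact_mod_cast this
  obtain ⟨_, hom, _⟩ := hGIS4 q hq
  have hom := fun i => hom (h i) (hFL i)
  have hmemA : ∀ i a, a ∈ A i ↔ a ∈ Om q (h i) := by
    intro i a
    rw [← hA i, Finset.mem_coe]
  have hbar : ∀ i, ∀ a ∈ A i, (q : Qb) / a ∈ A i := by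
    intro i a ha
    rw [hmemA] at ha ⊢
    exact ((hom i).2.2.1 a ha).2.2.1
  have hact : ∀ i, ∀ a ∈ A i, ∀ s : Qb ≃ₐ[ℚ] Qb, s a ∈ A i := by
    intro i a ha s
    rw [hmemA] at ha ⊢
    exact (hom i).2.2.2 a ha s
  have h0A : ∀ i, ∀ a ∈ A i, a ≠ 0 := by
    intro i a ha
    rw [hmemA] at ha
    exact ha.1
  have hbb : ∀ (z : Qb), z ≠ 0 → (q : Qb) / ((q : Qb) / z) = z := by
    intro z hz
    field_simp
  let Ω : Fin n → Type := fun i => A i
  let act : ∀ i, MulAction (Qb ≃ₐ[ℚ] Qb) (Ω i) := fun i =>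
    { smul := fun s x => ⟨s x.1, hact i x.1 x.2 s⟩
      one_smul := fun x => Subtype.ext rfl
      mul_smul := fun s t x => Subtype.ext rfl }
  let bar : ∀ i, Ω i → Ω i := fun i x => ⟨(q : Qb) / x.1, hbar i x.1 x.2⟩
  have hb1 : ∀ i x, bar i (bar i x) = x := fun i x => Subtype.ext (hbb x.1 (h0A i x.1 x.2))
  have hb2 : ∀ i x, bar i x ≠ x := by
    intro i x h1
    exact ((hom i).2.2.1 x.1 ((hmemA i x.1).1 x.2)).2.2.2 (congrArg Subtype.val h1)
  have hb3 : ∀ i (s : Qb ≃ₐ[ℚ] Qb) x, bar i (s • x) = s • bar i x := by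
    intro i s x
    apply Subtype.ext
    show (q : Qb) / s x.1 = s ((q : Qb) / x.1)
    rw [map_div₀, map_natCast]
  have htr : ∀ i (x y : Ω i), ∃ s : Qb ≃ₐ[ℚ] Qb, s • x = y := by
    intro i x y
    obtain ⟨s, hs⟩ := (hFL i).2.2.1 x.1 ((hmemA i x.1).1 x.2) y.1 ((hmemA i y.1).1 y.2)
    exact ⟨s, Subtype.ext hs⟩
  have hfl : ∀ i (x : Ω i), ∃ s : Qb ≃ₐ[ℚ] Qb, s • x = bar i x ∧
      ∀ y, y ≠ x → y ≠ bar i x → s • y = y := by
    intro i x
    obtain ⟨s, hs, hs'⟩ := (hFL i).2.2.2.1 x.1 ((hmemA i x.1).1 x.2)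
    exact ⟨s, Subtype.ext hs, fun y hy hy' => Subtype.ext (hs' y.1 ((hmemA i y.1).1 y.2)
      (fun h => hy (Subtype.ext h)) (fun h => hy' (Subtype.ext h)))⟩
  have hsg : ∀ i (x : Ω i) σ, slp q v (bar i x).1 σ = - slp q v x.1 σ := by
    intro i x σ
    exact (hSLP q v hq hv).2.2.2.1 x.1 (h0A i x.1 x.2) σ
  have hstab : ∀ (s : Qb ≃ₐ[ℚ] Qb), ∀ d ∈ R q v A, (fun i (x : Ω i) => d i (s⁻¹ • x)) ∈ R q v A := by
    intro s d hd σ
    have h1 := hd (σ * s)
    rw [← h1]
    refine Finset.sum_congr rfl fun i _ => ?_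
    rw [← Equiv.sum_comp (MulAction.toPerm s : Equiv.Perm (Ω i))]
    refine Finset.sum_congr rfl fun x _ => ?_
    rw [MulAction.toPerm_apply]
    have e1 : (fun i (x : Ω i) => d i (s⁻¹ • x)) i (s • x) = d i x := by
      show d i (s⁻¹ • (s • x)) = d i x
      rw [inv_smul_smul]
    rw [e1]
    rfl
  have hsumcoe : ∀ (w : Fin n → Qb → ℤ) (i : Fin n) (σ : Qb ≃ₐ[ℚ] Qb),
      ∑ x : Ω i, (w i x.1 : ℝ) * slp q v x.1 σ = ∑ a ∈ A i, (w i a : ℝ) * slp q v a σ := by
    intro w i σ
    exact Finset.sum_coe_sort (A i) (fun a => (w i a : ℝ) * slp q v a σ)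
  have hd0 : (fun i (x : Ω i) => m i x.1 - m i ((q : Qb) / x.1)) ∈ R q v A := by
    intro σ
    have e1 : ∀ i, ∑ x : Ω i, ((m i x.1 - m i ((q : Qb) / x.1) : ℤ) : ℝ) * slp q v x.1 σ =
        ∑ a ∈ A i, (m i a : ℝ) * slp q v a σ + ∑ a ∈ A i, (m i a : ℝ) * slp q v a σ := by
      intro i
      have e2 : ∀ x : Ω i, ((m i x.1 - m i ((q : Qb) / x.1) : ℤ) : ℝ) * slp q v x.1 σ =
          (m i x.1 : ℝ) * slp q v x.1 σ + (m i (bar i x).1 : ℝ) * slp q v (bar i x).1 σ := by
        intro x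
        rw [hsg]
        push_cast
        ring
      rw [Finset.sum_congr rfl fun x _ => e2 x, Finset.sum_add_distrib, hsumcoe m i σ]
      congr 1
      rw [← hsumcoe m i σ]
      have hinv : Function.Involutive (bar i) := hb1 i
      exact Equiv.sum_comp hinv.toPerm (fun x : Ω i => (m i x.1 : ℝ) * slp q v x.1 σ)
    show ∑ i, ∑ x : Ω i, ((m i x.1 - m i ((q : Qb) / x.1) : ℤ) : ℝ) * slp q v x.1 σ = 0
    rw [Finset.sum_congr rfl fun i _ => e1 i, Finset.sum_add_distrib, hrel σ, add_zero]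
  obtain ⟨I, i₀, w, c, B, hi₀, hwR, hBi₀, hwout, hwI, hst⟩ :=
    hGRP4 (Qb ≃ₐ[ℚ] Qb) (Fin n) Ω bar (R q v A) hb1 hb2 hb3 htr hfl hstab ⟨_, hd0, by
      intro i x
      show m i ((q : Qb) / x.1) - m i ((q : Qb) / ((q : Qb) / x.1)) =
        -(m i x.1 - m i ((q : Qb) / x.1))
      rw [hbb x.1 (h0A i x.1 x.2)]
      ring, by
      intro hz
      obtain ⟨i, a, ha, hia⟩ := hne0
      apply hia
      have h1 := congrFun (congrFun hz i) (⟨a, ha⟩ : Ω i)
      have h2 : m i a - m i ((q : Qb) / a) = 0 := h1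
      omega⟩
  -- the sets of roots
  let B' : Fin n → Finset Qb := fun i => (B i).image Subtype.val
  have hB' : ∀ i b, b ∈ B' i ↔ ∃ hb : b ∈ A i, (⟨b, hb⟩ : Ω i) ∈ B i := by
    intro i b
    constructor
    · intro hb
      obtain ⟨x, hx, rfl⟩ := Finset.mem_image.1 hb
      exact ⟨x.2, hx⟩
    · rintro ⟨hb, hb'⟩
      exact Finset.mem_image.2 ⟨⟨b, hb⟩, hb', rfl⟩
  have hB'card : ∀ i, (B' i).card = (B i).card := by
    intro i
    exact Finset.card_image_of_injective _ Subtype.val_injective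
  have hRS : ∀ i ∈ I, RS q (h i) (B' i) := by
    intro i hi
    obtain ⟨hc, hcard, hmem, hout⟩ := hwI i hi
    refine ⟨?_, by rw [hB'card]; exact hcard⟩
    intro b hb
    obtain ⟨hbA, hbB⟩ := (hB' i b).1 hb
    refine ⟨(hmemA i b).1 hbA, fun h => ?_⟩
    obtain ⟨h', h''⟩ := (hB' i _).1 h
    exact (hmem _ hbB).1 h''
  -- the field
  have hfix : ∀ i ∈ I, ∀ s : Qb ≃ₐ[ℚ] Qb, (∀ a ∈ ({∑ b ∈ B' i, b, ∏ b ∈ B' i, b} : Set Qb), s a = a) ↔
      ∀ b ∈ B i, s • b ∈ B i := by
    intro i hi s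
    obtain ⟨hc, hcard, hmem, hout⟩ := hwI i hi
    have hmove : (∀ b ∈ B i, s • b ∈ B i) ↔ ∀ b ∈ B' i, s b ∈ B' i := by
      constructor
      · intro h1 b hb
        obtain ⟨hbA, hbB⟩ := (hB' i b).1 hb
        exact (hB' i _).2 ⟨_, h1 _ hbB⟩
      · intro h1 b hb
        obtain ⟨h2, h3⟩ := (hB' i _).1 (h1 b.1 ((hB' i _).2 ⟨b.2, hb⟩))
        exact h3
    rw [hmove]
    rw [← hB'card i] at hcard
    rcases hcard with h1 | h1
    · obtain ⟨y, hy⟩ := Finset.card_eq_one.1 h1
      rw [hy]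
      constructor
      · intro h2 b hb
        rw [Finset.mem_singleton] at hb ⊢
        subst hb
        have h3 := h2 (∑ b' ∈ ({b} : Finset Qb), b') (Or.inl rfl)
        rwa [Finset.sum_singleton] at h3
      · intro h2 a ha
        have h3 := h2 y (Finset.mem_singleton_self y)
        rw [Finset.mem_singleton] at h3
        rw [Finset.sum_singleton, Finset.prod_singleton] at ha
        rcases ha with rfl | ha
        · exact h3
        · rw [Set.mem_singleton_iff] at ha
          subst ha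
          exact h3
    · obtain ⟨y, z, hyz, hy⟩ := Finset.card_eq_two.1 h1
      rw [hy, Finset.sum_pair hyz, Finset.prod_pair hyz]
      constructor
      · intro h2 b hb
        have e1 : s y + s z = y + z := by
          rw [← map_add]
          exact h2 _ (Or.inl rfl)
        have e2 : s y * s z = y * z := by
          rw [← map_mul]
          exact h2 _ (Or.inr rfl)
        have e3 : ∀ u, (u = s y ∨ u = s z) → (u - y) * (u - z) = 0 := by
          intro u hu
          have e4 : (u - s y) * (u - s z) = 0 := by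
            rcases hu with rfl | rfl
            · rw [sub_self, zero_mul]
            · rw [sub_self, mul_zero]
          have e5 : (u - y) * (u - z) = (u - s y) * (u - s z) := by
            have : (u - y) * (u - z) = u ^ 2 - (y + z) * u + y * z := by ring
            rw [this, ← e1, ← e2]
            ring
          rw [e5, e4]
        rw [Finset.mem_insert, Finset.mem_singleton] at hb ⊢
        rcases hb with rfl | rfl
        · rcases mul_eq_zero.1 (e3 _ (Or.inl rfl)) with h3 | h3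
          · exact Or.inl (sub_eq_zero.1 h3)
          · exact Or.inr (sub_eq_zero.1 h3)
        · rcases mul_eq_zero.1 (e3 _ (Or.inr rfl)) with h3 | h3
          · exact Or.inl (sub_eq_zero.1 h3)
          · exact Or.inr (sub_eq_zero.1 h3)
      · intro h2 a ha
        have h3 := h2 y (Finset.mem_insert_self _ _)
        have h4 := h2 z (Finset.mem_insert_of_mem (Finset.mem_singleton_self _))
        rw [Finset.mem_insert, Finset.mem_singleton] at h3 h4
        have h5 : s y ≠ s z := fun h => hyz (s.injective h)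
        have h6 : s y + s z = y + z ∧ s y * s z = y * z := by
          rcases h3 with h3 | h3 <;> rcases h4 with h4 | h4
          · exact absurd (h3.trans h4.symm) h5
          · rw [h3, h4]
            exact ⟨rfl, rfl⟩
          · rw [h3, h4]
            exact ⟨add_comm _ _, mul_comm _ _⟩
          · exact absurd (h3.trans h4.symm) h5
        rcases ha with rfl | ha
        · rw [map_add]
          exact h6.1
        · rw [Set.mem_singleton_iff] at ha
          subst ha
          rw [map_mul]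
          exact h6.2
  refine ⟨I, i₀, c, B', hi₀, by rw [hB'card]; exact hBi₀, fun i hi => ⟨(hwI i hi).1, hRS i hi⟩,
    fun i hi j hj => ?_, fun σ => ?_⟩
  · refine (t_GAL _ _).2 fun s => ?_
    rw [hfix i hi s, hfix j hj s]
    exact hst i hi j hj s
  · have h1 := hwR σ
    have e1 : ∀ i ∈ I, ∑ x : Ω i, (w i x : ℝ) * slp q v x.1 σ =
        2 * ((c i : ℝ) * ∑ b ∈ B' i, slp q v b σ) := by
      intro i hi
      obtain ⟨hc, hcard, hmem, hout⟩ := hwI i hi
      have hdisj : Disjoint (B i) ((B i).image (bar i)) := by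
        rw [Finset.disjoint_left]
        intro x hx hx'
        obtain ⟨y, hy, rfl⟩ := Finset.mem_image.1 hx'
        exact (hmem y hy).1 hx
      have e2 : ∑ x : Ω i, (w i x : ℝ) * slp q v x.1 σ =
          ∑ x ∈ B i ∪ (B i).image (bar i), (w i x : ℝ) * slp q v x.1 σ := by
        symm
        apply Finset.sum_subset (Finset.subset_univ _)
        intro x _ hx
        rw [Finset.mem_union] at hx
        push Not at hx
        rw [hout x hx.1 (fun h => hx.2 (Finset.mem_image.2 ⟨_, h, hb1 i x⟩))]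
        simp
      have hinj : Set.InjOn (bar i) (B i : Set (Ω i)) := by
        intro x _ y _ hxy
        rw [← hb1 i x, hxy, hb1]
      rw [e2, Finset.sum_union hdisj, Finset.sum_image hinj]
      have e3 : ∀ x ∈ B i, (w i x : ℝ) * slp q v x.1 σ = (c i : ℝ) * slp q v x.1 σ := by
        intro x hx
        rw [(hmem x hx).2.1]
      have e4 : ∀ x ∈ B i, (w i (bar i x) : ℝ) * slp q v (bar i x).1 σ =
          (c i : ℝ) * slp q v x.1 σ := by
        intro x hx
        rw [(hmem x hx).2.2, hsg]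
        push_cast
        ring
      rw [Finset.sum_congr rfl e3, Finset.sum_congr rfl e4, ← Finset.mul_sum]
      have e5 : ∑ b ∈ B' i, slp q v b σ = ∑ x ∈ B i, slp q v x.1 σ :=
        Finset.sum_image (fun x _ y _ h => Subtype.ext h)
      rw [e5]
      ring
    have e6 : ∑ i, ∑ x : Ω i, (w i x : ℝ) * slp q v x.1 σ =
        ∑ i ∈ I, ∑ x : Ω i, (w i x : ℝ) * slp q v x.1 σ := by
      symm
      apply Finset.sum_subset (Finset.subset_univ I)
      intro i _ hi
      apply Finset.sum_eq_zero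
      intro x _
      rw [hwout i hi]
      simp
    have e7 : ∑ i, ∑ x : Ω i, (w i x : ℝ) * slp q v x.1 σ = 0 := h1
    rw [e6, Finset.sum_congr rfl e1, ← Finset.mul_sum] at e7
    linarith

end Pool.Agent.TJ4
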