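import Pool.Agent.TJ3.St

/-!
# Project TJ4: classification of the Tate classes on products of abelian varieties whose
Frobenius has all sign changes in its Galois group (MP_3af9db_ag, architect helper65)

Generalisation of TJ3 (all 25 modules of which are proved): ordinary is replaced by arbitrary
Newton polygons, and the full group `W (B_g)` by any transitive group containing the flips of the
single pairs `a, q / a` (class `FL q`); i.e. no condition on the Galois group of the totally real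
field, only `Gal (L / L_0) = (Z / 2) ^ g` for the Galois closures `L`, `L_0` of `ℚ(a)` and
`ℚ(a + q / a)`.

`v` is an absolute value of the field of algebraic numbers `Qb` over `p`; the SLOPE VECTOR of `a`
is the function `slp q v a : σ ↦ 1 - 2 log v(σ a) / log v(q)` on the Galois group; for ordinary `a` it
is the sign vector `sgn P a` of TJ3.

THEOREM.  For `S ⊆ FL q`: all geometric Tate classes on all abelian varieties with geometric simple
factors supersingular or from `S` are polynomials in divisor classes if and only if `Cr q v S`: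
whenever `h_1, ..., h_n ∈ S` are pairwise not geometrically isogenous, `B_i` is a root of `h_i` or a
pair of two not conjugate roots of `h_i`, at least one of the `B_i` is a single root, and all `B_i`
generate the same field `Fd (B_i)`, then the slope vectors of the `B_i` (sums over the elements)
are linearly independent.

Each statement `S_X` below is a module, with its complete proof in the doc string: file
`Pool/Agent/TJ4/X.lean`, theorem `t_X` with the hypotheses named in the doc string.  All files of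
`Pool/Agent/TJ2`, `Pool/Agent/TJ3` may be imported or adapted.
-/

open Polynomial IntermediateField

namespace Pool.Agent.TJ4

open Pool.Agent.TJ2 Pool.Agent.TJ3

noncomputable section

/-! ## Definitions -/

/-- `v` is a non-archimedean absolute value of the field of algebraic numbers over `p` -/
structure Ab (q : ℕ) (v : AbsoluteValue Qb ℝ) : Prop where
  na : IsNonarchimedean v
  lt : v ((q.minFac : ℕ) : Qb) < 1

/-- the slope vector of `a`: `1 - 2 w (σ a)`, `w` the valuation with `w (q) = 1` -/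
def slp (q : ℕ) (v : AbsoluteValue Qb ℝ) (a : Qb) (σ : Qb ≃ₐ[ℚ] Qb) : ℝ :=
  1 - 2 * (Real.log (v (σ a)) / Real.log (v (q : Qb)))

/-- The real Weil polynomials `h` (of degree `≥ 1`) such that the Galois group is transitive on the
roots `a` of `x ^ g h (x + q / x)`, contains for each `a` the transposition of `a` and `q / a`, and
no `a` is supersingular. -/
def FL (q : ℕ) : Set ℤ[X] :=
  {h | 1 ≤ h.natDegree ∧ h ∈ RW h.natDegree q ∧
    (∀ a ∈ Om q h, ∀ b ∈ Om q h, ∃ σ : Qb ≃ₐ[ℚ] Qb, σ a = b) ∧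
    (∀ a ∈ Om q h, ∃ σ : Qb ≃ₐ[ℚ] Qb, σ a = (q : Qb) / a ∧
      ∀ b ∈ Om q h, b ≠ a → b ≠ (q : Qb) / a → σ b = b) ∧
    ∀ a ∈ Om q h, ∀ N : ℕ, 1 ≤ N → a ^ (2 * N) ≠ (q : Qb) ^ N}

/-- one root, or two different roots which are not conjugate -/
def RS (q : ℕ) (h : ℤ[X]) (B : Finset Qb) : Prop :=
  (∀ b ∈ B, b ∈ Om q h ∧ (q : Qb) / b ∉ B) ∧ (B.card = 1 ∨ B.card = 2)

/-- the field generated by the sum and the product of the elements of `B` -/
def Fd (B : Finset Qb) : IntermediateField ℚ Qb := adjoin ℚ {∑ b ∈ B, b, ∏ b ∈ B, b}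

/-- The criterion. -/
def Cr (q : ℕ) (v : AbsoluteValue Qb ℝ) (S : Set ℤ[X]) : Prop :=
  ∀ (n : ℕ) (h : Fin n → ℤ[X]) (B : Fin n → Finset Qb), (∀ i, h i ∈ S ∧ RS q (h i) (B i)) →
    (∃ i, (B i).card = 1) → (∀ i j, Fd (B i) = Fd (B j)) →
    (∀ i j, i ≠ j → ¬ GIso q (h i) (h j)) →
    LinearIndependent ℚ (fun i => fun σ : Qb ≃ₐ[ℚ] Qb => ∑ b ∈ B i, slp q v b σ)

lemma slp_apply (q : ℕ) (v : AbsoluteValue Qb ℝ) (a : Qb) (τ σ : Qb ≃ₐ[ℚ] Qb) :
    slp q v (τ a) σ = slp q v a (σ * τ) := rfl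

/-! ## Arithmetic -/

/-- EXV.  Existence of `v`.
PROOF.  The norm of Mathlib on `PadicAlgCl p` (algebraic closure of `ℚ_[p]`), `p = q.minFac`, is
non-archimedean and multiplicative with `‖p‖ = 1 / p`; compose with an embedding of `Qb` in
`PadicAlgCl p` (`IsAlgClosed.lift`, see `TJ2/JD.lean`, `JD_emb`).  (Or any other extension of the
`p`-adic absolute value.) -/
def S_EXV : Prop := ∀ q : ℕ, IsPrimePow q → ∃ v : AbsoluteValue Qb ℝ, Ab q v

/-- SLP.  Basic facts.  (Import `TJ2.OMB`.)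
PROOF.  `v (n) ≤ 1` for integers `n` and `v (x) ≤ 1` for algebraic integers `x`
(`x ^ n = - ∑ c_i x ^ i`, non-archimedean).  `q` is a power `≥ 1` of `p`, so `0 < v q < 1` and
`log v(q) < 0`.  `v (σ (q / a)) = v q / v (σ a)`.  `P = {x | v x < 1}` is a prime ideal.  Last claim
(`h` ordinary): let `b = σ a ∈ Om q h`; `x = b`, `y = q / b` are algebraic integers with `x y = q`;
if both were in `P`, then `x + y ∈ P` is a root of `h`, so `h.coeff 0 ∈ P` and `p ∈ P`, so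
`1 ∈ P` (see `TJ3/SGB.lean`).  If `x ∉ P`: `v x = 1` and the slope is `1`; else `v y = 1`,
`v x = v q`, the slope is `-1`. -/
def S_SLP : Prop :=
  ∀ (q : ℕ) (v : AbsoluteValue Qb ℝ), IsPrimePow q → Ab q v →
    0 < v (q : Qb) ∧ v (q : Qb) < 1 ∧ (∀ x : Zb, v (x : Qb) ≤ 1) ∧
    (∀ a : Qb, a ≠ 0 → ∀ σ : Qb ≃ₐ[ℚ] Qb, slp q v ((q : Qb) / a) σ = - slp q v a σ) ∧
    ∃ P : Ideal Zb, P.IsPrime ∧ ((q.minFac : ℕ) : Zb) ∈ P ∧
      (∀ x : Zb, x ∈ P ↔ v (x : Qb) < 1) ∧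
      ∀ (g : ℕ) (h : ℤ[X]), h ∈ Ord g q → ∀ a ∈ Om q h, ∀ σ : Qb ≃ₐ[ℚ] Qb,
        slp q v a σ = ((sgn P a σ : ℚ) : ℝ) ∧ (sgn P a σ = 1 ∨ sgn P a σ = -1)

/-- VAL4.  A multiplicative relation gives a relation of the slope vectors.  Uses `S_SLP`.
PROOF.  `L x = log v(σ x)` is additive on products of nonzero elements, so
`N ∑ L a = N ∑ L (q / a)`, hence `∑ slp a = ∑ slp (q / a) = - ∑ slp a`. -/
def S_VAL4 : Prop :=
  ∀ (q : ℕ) (v : AbsoluteValue Qb ℝ), IsPrimePow q → Ab q v →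
    ∀ l : List Qb, (∀ a ∈ l, a ≠ 0) → ∀ N : ℕ, 1 ≤ N →
    l.prod ^ N = ((l.map fun a => (q : Qb) / a).prod) ^ N →
    ∀ σ : Qb ≃ₐ[ℚ] Qb, (l.map fun a => slp q v a σ).sum = 0

/-- LOC.  The valuation ring of `v` is the localisation of `Zb` at its prime ideal.
PROOF.  `u = 0`: `s = 1`.  Let `f = ∑ c_k x ^ k ∈ ℤ[x]` be primitive (content 1) of degree `n ≥ 1`
with `f (u) = 0`, e.g. the primitive part of a nonzero integer polynomial vanishing at `u`.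
Some coefficient has `v (c_k) = 1` (else `v 1 < 1`, as `1` is an integer combination of the
`c_k`).  Let `a_j = c_n u ^ j + c_(n-1) u ^ (j-1) + ... + c_(n-j)`, `0 ≤ j ≤ n`; `a_n = 0`.  For
`j < n` the `a_j` are algebraic integers: multiplication by `a_j` maps the `ℤ`-span `M` of
`1, u, ..., u ^ (n-1)` into itself: `a_j u ^ i ∈ M` is clear for `i + j ≤ n - 1`, and for `i + j ≥ n`
write `a_j u ^ i = - u ^ (i-1) (c_(n-j-1) + c_(n-j-2) u ^ (-1) + ... + c_0 u ^ (-(n-j-1)))`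
(from `u ^ (n-j-1) (a_j u) = - (c_(n-j-1) u ^ (n-j-1) + ... + c_0)`), with exponents between
`i + j - n ≥ 0` and `i - 1`
(or: `isIntegral_leadingCoeff_smul` and induction).  And `a_j u = a_(j+1) - c_(n-j-1)` is an
algebraic integer too.  If `v (a_j) = 1` for some `j < n`: `s = a_j`, `t = a_j u`.  Else
`v (a_j) < 1` for all `j ≤ n`; if `c_n` is the coefficient with `v = 1` we have `a_0 = c_n`,
contradiction; else it is `c_(n-j-1) = a_(j+1) - a_j u` with `0 ≤ j < n`, so `v (a_j u) = 1` and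
`v u = 1 / v (a_j) > 1`, contradiction. -/
def S_LOC : Prop :=
  ∀ (v : AbsoluteValue Qb ℝ), IsNonarchimedean v → ∀ u : Qb, v u ≤ 1 →
    ∃ s t : Zb, v (s : Qb) = 1 ∧ (s : Qb) * u = t

/-- UNI4.  Converse of VAL4.  Uses `S_SLP`, `S_LOC`; import `TJ3.TRN`, `TJ3.KRO`, `TJ2.EMB`,
`TJ2.OMB` (`t_TRN`, `t_KRO`, `t_EMB`, `t_OMB`); compare `TJ3/UNI.lean`.
PROOF.  `X = ∏ a`, `Y = ∏ q / a` are algebraic integers, `X Y = q ^ |l|`; `u = X / Y`.  For all `σ`,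
`v (σ u) = 1` (`∑ slp a = 0 = ∑ slp (q / a)`, so `log v(σ X) = log v(σ Y)`).  Claim: `u ∈ Zb`.  Let
`I = {s : Zb | s u ∈ Zb}`, an ideal; if it is proper let `I ⊆ M`, `M` maximal.  `Y ∈ I`, so
`q ^ |l| ∈ M`, so `p ∈ M`.  Let `P` be the prime ideal of `v` (`S_SLP`), `τ` as in `t_TRN` for
`P`, `M`.  LOC for `τ⁻¹ u`: `s (τ⁻¹ u) = t`, `v s = 1`, so `s ∉ P`, `τ s ∉ M`, but
`(τ s) u = τ t ∈ Zb`, so `τ s ∈ I`, contradiction.  All complex absolute values of `u` are 1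
(`t_EMB`), so `u ^ N = 1` (`t_KRO`). -/
def S_UNI4 : Prop :=
  ∀ (q : ℕ) (v : AbsoluteValue Qb ℝ), IsPrimePow q → Ab q v →
    ∀ l : List Qb, (∀ a ∈ l, ∃ h ∈ FL q, a ∈ Om q h) →
    (∀ σ : Qb ≃ₐ[ℚ] Qb, (l.map fun a => slp q v a σ).sum = 0) →
    ∃ N : ℕ, 1 ≤ N ∧ l.prod ^ N = ((l.map fun a => (q : Qb) / a).prod) ^ N

/-- GIS4.  Basic facts on `FL` and geometric isogeny.  (Import `TJ2.OMB`, `TJ2.FULC`, `TJ2.SING`,
`TJ2.EMB`; compare `TJ3/GIS.lean`.)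
PROOF.  `FO q ⊆ FL q`: `S_FULC`; `a ^ (2 N) = q ^ N` would give
`(a ^ 1 * (q / a) ^ (-1)) ^ N = 1`, contradiction to `S_SING`.  Finite, stable, integral: `S_OMB`;
`q / a ≠ a`, else `a ^ 2 = q`; not empty: `h` has a root `b` (degree `≥ 1`) and `S_OMB`.
Uniqueness: `a ^ M = b ^ M`, `a ≠ b`: if `b = q / a` then `a ^ (2 M) = q ^ M`, contradiction; else
take the flip `σ` of `a`: `(q / a) ^ M = (σ b) ^ M = b ^ M = a ^ M`, again a contradiction.  The
rest as in `TJ3/GIS.lean`. -/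
def S_GIS4 : Prop :=
  ∀ q : ℕ, IsPrimePow q → FO q ⊆ FL q ∧
    (∀ h ∈ FL q, (Om q h).Finite ∧ (Om q h).Nonempty ∧
      (∀ a ∈ Om q h, a ≠ 0 ∧ IsIntegral ℤ a ∧ (q : Qb) / a ∈ Om q h ∧ (q : Qb) / a ≠ a) ∧
      ∀ a ∈ Om q h, ∀ σ : Qb ≃ₐ[ℚ] Qb, σ a ∈ Om q h) ∧
    (∀ h ∈ FL q, ∀ a ∈ Om q h, ∀ b ∈ Om q h, ∀ M : ℕ, 1 ≤ M → a ^ M = b ^ M → a = b) ∧
    (∀ h ∈ FL q, ∀ a ∈ Om q h, ∀ b ∈ Om q h, ∀ M : ℕ, 1 ≤ M → (a * b) ^ M = (q : Qb) ^ M →
      b = (q : Qb) / a) ∧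
    (∀ h ∈ FL q, GIso q h h) ∧
    (∀ h h' : ℤ[X], GIso q h h' → GIso q h' h) ∧
    (∀ h ∈ FL q, ∀ h' ∈ FL q, ∀ h'' ∈ FL q, GIso q h h' → GIso q h' h'' → GIso q h h'') ∧
    (∀ h ∈ FL q, ∀ h' ∈ FL q, GIso q h h' → ∀ a ∈ Om q h, ∃ a' ∈ Om q h', ∃ N : ℕ, 1 ≤ N ∧
      a ^ N = a' ^ N)

/-! ## Relations -/

/-- ORB4.  Orbit sizes.
PROOF.  Let `O` be the orbit (finite), `2 k` the number of the `x` with `w x ≠ 0` (also for all
`f ∈ O`), `k ≥ 1`.  The number `n` of the `f ∈ O` with `f x ≠ 0` does not depend on `x`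
(transitivity; `f ↦ s f` is a bijection of `O`).  Counting pairs `(f, x)` with `f x ≠ 0`:
`|O| 2 k = |Ω| n`, so `|O| ≤ |Ω|` gives `n ≤ 2 k`.  Fix `x` with `w x ≠ 0`.  All sign changes of `w`
on sets of pairs are in `O` (products of flips: for each finite set `A` there is `s` acting like
`ORB_flip bar A` of `TJ2/ORB.lean`, induction on `A`), and they are `2 ^ k` different functions which
are not zero at `x`, so `2 ^ k ≤ n ≤ 2 k` and `k ≤ 2` (`ORB_arith2`), `n = 2 k`, `|O| = |Ω|`.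
`k = 1`: first case.  `k = 2`: `n = 4`, so for `w x ≠ 0` the functions `f ∈ O` with `f x ≠ 0` are
exactly the 4 sign changes of `w`, in particular `|f x| = |w x|`.  Let `y, z` be in the support, in
different pairs, and `s y = z`; `f = s w` has `f z = w y ≠ 0`, so `|w y| = |f z| = |w z|`.  Replace
`z` by `bar z` if necessary. -/
def S_ORB4 : Prop :=
  ∀ (Γ Ω : Type) [Group Γ] [Fintype Ω] [DecidableEq Ω] [MulAction Γ Ω] (bar : Ω → Ω)
    (w : Ω → ℤ),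
    (∀ x, bar (bar x) = x) → (∀ x, bar x ≠ x) → (∀ (s : Γ) x, bar (s • x) = s • bar x) →
    (∀ x y : Ω, ∃ s : Γ, s • x = y) →
    (∀ x : Ω, ∃ s : Γ, s • x = bar x ∧ ∀ y, y ≠ x → y ≠ bar x → s • y = y) →
    (∀ x, w (bar x) = - w x) → w ≠ 0 →
    (Set.range (fun s : Γ => fun x => w (s⁻¹ • x))).ncard ≤ Fintype.card Ω →
    (∃ y, w y ≠ 0 ∧ ∀ x, x ≠ y → x ≠ bar y → w x = 0) ∨
      (∃ y z, z ≠ y ∧ z ≠ bar y ∧ w y ≠ 0 ∧ w z = w y ∧
        ∀ x, x ≠ y → x ≠ bar y → x ≠ z → x ≠ bar z → w x = 0)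

/-- GRP4.  Minimal relations.  Uses `S_ORB4`; adapt `TJ3/GRP2.lean`.
PROOF.  As for GRP2: minimal support `I`, `i₀ ∈ I` with `card (Ω i₀)` minimal, `x₀`, `w = d - s d`
with `s` the flip of `x₀` on `Ω i₀`; `w i₀` is supported on `x₀, bar x₀`; for `j ∈ I`:
`s x₀ = x₀ ↔ s (w j) = w j` (`hstab` in `GRP2.lean`), so the orbit of `w j` has at most
`card (Ω i₀) ≤ card (Ω j)` elements (`horb` there) and ORB4 applies: `B j = {y}`, `c j = w j y`, or
`B j = {y, z}`, `c j = w j y`.  (`B i₀ = {x₀}`.)  `s` fixes `w j` iff it maps `B j = {x | w j x =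
c j}` into itself. -/
def S_GRP4 : Prop :=
  ∀ (Γ ι : Type) [Group Γ] [Fintype ι] [DecidableEq ι] (Ω : ι → Type) [∀ i, Fintype (Ω i)]
    [∀ i, DecidableEq (Ω i)] [∀ i, MulAction Γ (Ω i)] (bar : ∀ i, Ω i → Ω i)
    (R : AddSubgroup (∀ i, Ω i → ℤ)),
    (∀ i x, bar i (bar i x) = x) → (∀ i x, bar i x ≠ x) →
    (∀ i (s : Γ) x, bar i (s • x) = s • bar i x) →
    (∀ i (x y : Ω i), ∃ s : Γ, s • x = y) →
    (∀ i (x : Ω i), ∃ s : Γ, s • x = bar i x ∧ ∀ y, y ≠ x → y ≠ bar i x → s • y = y) →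
    (∀ (s : Γ), ∀ d ∈ R, (fun i x => d i (s⁻¹ • x)) ∈ R) →
    (∃ d ∈ R, (∀ i x, d i (bar i x) = - d i x) ∧ d ≠ 0) →
    ∃ (I : Finset ι) (i₀ : ι) (w : ∀ i, Ω i → ℤ) (c : ι → ℤ) (B : ∀ i, Finset (Ω i)),
      i₀ ∈ I ∧ w ∈ R ∧ (B i₀).card = 1 ∧ (∀ i, i ∉ I → w i = 0) ∧
      (∀ i ∈ I, c i ≠ 0 ∧ ((B i).card = 1 ∨ (B i).card = 2) ∧
        (∀ b ∈ B i, bar i b ∉ B i ∧ w i b = c i ∧ w i (bar i b) = - c i) ∧
        (∀ x, x ∉ B i → bar i x ∉ B i → w i x = 0)) ∧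
      (∀ i ∈ I, ∀ j ∈ I, ∀ s : Γ, (∀ b ∈ B i, s • b ∈ B i) ↔ (∀ b ∈ B j, s • b ∈ B j))

/-- REL4.  The same for the slope vectors.  Uses `S_GRP4`, `S_SLP`, `S_GIS4`; import `TJ3.GAL`
(`t_GAL`), adapt `TJ3/REL.lean`.
PROOF.  `Γ = Qb ≃ₐ[ℚ] Qb`, `Ω i = A i`, `R` the relations of the slope vectors,
`d i a = m i a - m i (q / a)`.  GRP4.  The sum over `A i` of `w i a slp a` is
`2 c i ∑_(b ∈ B i) slp b` (`slp (q / b) = - slp b`; a factor 2 can be cancelled).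
Fields: by GAL `Fd (B i) = Fd (B j)` iff the same `σ` fix sum and product of `B i` and of `B j`; for
a set `B` with one or two elements `σ` fixes sum and product iff it maps `B` into itself
(`(x - b) (x - b')` has the roots `b, b'`). -/
def S_REL4 : Prop :=
  ∀ (q : ℕ) (v : AbsoluteValue Qb ℝ), IsPrimePow q → Ab q v →
    ∀ (n : ℕ) (h : Fin n → ℤ[X]) (A : Fin n → Finset Qb) (m : Fin n → Qb → ℤ),
    (∀ i, h i ∈ FL q) → (∀ i, (A i : Set Qb) = Om q (h i)) →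
    (∀ σ : Qb ≃ₐ[ℚ] Qb, ∑ i, ∑ a ∈ A i, (m i a : ℝ) * slp q v a σ = 0) →
    (∃ i, ∃ a ∈ A i, m i ((q : Qb) / a) ≠ m i a) →
    ∃ (J : Finset (Fin n)) (i₀ : Fin n) (c : Fin n → ℤ) (B : Fin n → Finset Qb),
      i₀ ∈ J ∧ (B i₀).card = 1 ∧ (∀ i ∈ J, c i ≠ 0 ∧ RS q (h i) (B i)) ∧
      (∀ i ∈ J, ∀ j ∈ J, Fd (B i) = Fd (B j)) ∧
      (∀ σ : Qb ≃ₐ[ℚ] Qb, ∑ i ∈ J, (c i : ℝ) * ∑ b ∈ B i, slp q v b σ = 0)

/-- IND4'.  Under the criterion there are only trivial relations.  Uses `S_REL4`.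
PROOF.  Else REL4 gives `J`, `i₀`, `c`, `B`; number `J` (`Finset.orderIsoOfFin` or
`Finset.equivFin`) and apply `Cr` to the families `h i`, `B i`, `i ∈ J`: linearly independent, but
`∑ c i (...) = 0` with nonzero integers `c i`, and `J` is not empty. -/
def S_IND44 : Prop :=
  ∀ (q : ℕ) (v : AbsoluteValue Qb ℝ) (S : Set ℤ[X]), IsPrimePow q → Ab q v → S ⊆ FL q →
    Cr q v S → ∀ (n : ℕ) (h : Fin n → ℤ[X]) (A : Fin n → Finset Qb) (m : Fin n → Qb → ℤ),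
    (∀ i, h i ∈ S) → (∀ i j, i ≠ j → ¬ GIso q (h i) (h j)) →
    (∀ i, (A i : Set Qb) = Om q (h i)) →
    (∀ σ : Qb ≃ₐ[ℚ] Qb, ∑ i, ∑ a ∈ A i, (m i a : ℝ) * slp q v a σ = 0) →
    ∀ i, ∀ a ∈ A i, m i ((q : Qb) / a) = m i a

/-- IND3'.  Partners in lists.  Uses `S_IND44`, `S_VAL4`, `S_GIS4`; adapt `TJ3/IND3.lean`. -/
def S_IND34 : Prop :=
  ∀ (q : ℕ) (v : AbsoluteValue Qb ℝ) (S : Set ℤ[X]), IsPrimePow q → Ab q v → S ⊆ FL q →
    Cr q v S → ∀ (l : List (ℤ[X] × Qb)) (x : ℤ[X] × Qb), x.1 ∈ S → x.2 ∈ Om q x.1 →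
    (∀ y ∈ l, y.1 ∈ S ∧ y.2 ∈ Om q y.1) → ∀ (N : ℕ) (k : ℤ), 1 ≤ N →
    (x.2 * (l.map Prod.snd).prod) ^ N = (q : Qb) ^ k →
    (∃ y ∈ l, ∃ M : ℕ, 1 ≤ M ∧ (x.2 * y.2) ^ M = (q : Qb) ^ M) ∧ Odd l.length

/-- PART4.  Partners of admissible eigenvalues.  Uses `S_IND34`; adapt `TJ3/PART.lean`. -/
def S_PART4 : Prop :=
  ∀ (q : ℕ) (v : AbsoluteValue Qb ℝ) (S : Set ℤ[X]), IsPrimePow q → Ab q v → S ⊆ FL q →
    Cr q v S → ∀ (K : Type) [Field K] [IsAlgClosed K] [CharZero K] (z : K) (l : List K),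
    Adm q S z → (∀ y ∈ l, Adm q S y) → ∀ j N : ℕ, 1 ≤ N → l.length + 1 = 2 * j →
    (z * l.prod) ^ N = ((q : K) ^ j) ^ N → ∃ y ∈ l, ∃ M : ℕ, 1 ≤ M ∧ (z * y) ^ M = (q : K) ^ M

/-- POS4.  The positive part.  Uses `S_PART4`; adapt `TJ3/JG3.lean`, `TJ3/POS.lean`, import
`TJ3.JB3`, `TJ3.JF3`. -/
def S_POS4 : Prop :=
  ∀ (q : ℕ) (v : AbsoluteValue Qb ℝ) (S : Set ℤ[X]), IsPrimePow q → Ab q v → S ⊆ FL q →
    Cr q v S → ∀ (K : Type) [Field K] [CharZero K] (V : Type) [AddCommGroup V] [Module K V]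
      [Module.Finite K V] (F : Module.End K V), F.IsSemisimple →
      (∀ z : AlgebraicClosure K, aeval z F.charpoly = 0 → Adm q S z) →
      ∀ (j N : ℕ) (x : ExteriorAlgebra K V), 1 ≤ N → x ∈ ⋀[K]^(2 * j) V →
        ExteriorAlgebra.map (F ^ N) x = (q : K) ^ (j * N) • x →
        x ∈ Algebra.adjoin K (Deg2g F (q : K))

/-! ## The negative part and the special cases -/

/-- E14.  Dependent slope vectors give data.  Uses `S_SLP`, `S_UNI4`, `S_GIS4`; compare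
`TJ3/E1.lean`, `TJ3/E2.lean`.
PROOF.  Integers `c i`, not all zero, with `∑ c i slp (B i) = 0`.  Index set: the pairs
`(i, b)`, `b ∈ B i`; `e = |c i|`, `r = b` if `c i ≥ 0`, `q / b` else; so `∑ e slp (r) = 0`, and UNI4
for the list with `e` copies of each `r` gives the relation.  For two different pairs with the same
`i`: `b ≠ b'` are different and not conjugate, so `r ^ M ≠ r' ^ M` and `(r r') ^ M ≠ q ^ M`
(uniqueness in GIS4); with different `i` it contradicts `¬ GIso`.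
`(r r) ^ M = q ^ M` is excluded as `r` is not supersingular. -/
def S_E14 : Prop :=
  ∀ (q : ℕ) (v : AbsoluteValue Qb ℝ) (S : Set ℤ[X]), IsPrimePow q → Ab q v → S ⊆ FL q →
    ∀ (n : ℕ) (h : Fin n → ℤ[X]) (B : Fin n → Finset Qb), (∀ i, h i ∈ S ∧ RS q (h i) (B i)) →
    (∀ i j, i ≠ j → ¬ GIso q (h i) (h j)) →
    ¬ LinearIndependent ℚ (fun i => fun σ : Qb ≃ₐ[ℚ] Qb => ∑ b ∈ B i, slp q v b σ) →
    HasData q S

/-- NEG4.  Data give exotic classes, for all `F` whose characteristic polynomial is divisible by an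
explicit product.  Import `TJ3.EIG`, `TJ3.EXL`, `TJ3.EXK`, `TJ3.JF3`, adapt `TJ3/NEG.lean` (only
the divisibility is used there). -/
def S_NEG4 : Prop :=
  ∀ (q : ℕ) (S : Set ℤ[X]), IsPrimePow q → S ⊆ FL q → HasData q S →
    ∃ (n : ℕ) (h : Fin n → ℤ[X]) (e : Fin n → ℕ), (∀ k, h k ∈ S) ∧
      ∀ (K : Type) [Field K] [CharZero K] (V : Type) [AddCommGroup V] [Module K V]
        [Module.Finite K V] (F : Module.End K V), F.IsSemisimple →
        ∏ k, ((weil q (h k)).map (Int.castRingHom K)) ^ e k ∣ F.charpoly →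
        ∃ (j N : ℕ) (x : ExteriorAlgebra K V), 1 ≤ N ∧ x ∈ ⋀[K]^(2 * j) V ∧
          ExteriorAlgebra.map (F ^ N) x = (q : K) ^ (j * N) • x ∧
          x ∉ Algebra.adjoin K (Deg2g F (q : K))

/-- C34.  A simple sufficient condition in the ordinary case.  Uses `S_SLP`, `S_UNI4`, `S_GIS4`;
import `TJ3.THR` (`t_THR`), compare `TJ3/C3.lean`.
PROOF.  The slope vectors of single roots have the values `± 1` (`S_SLP`).  Two of them, for
not isogenous members, are not equal or opposite (UNI4 for a list of two elements, see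
`TJ3/C3.lean`).  Let a family as in `Cr` be given.  All `B i` single (`Fd {a} = ℚ⟮a⟯`): `n ≤ 3` by
the first hypothesis (else take the first four), and `t_THR` (transfer from `ℚ`-valued functions
`sgn P` to real-valued ones by the injection `ℚ → ℝ`).  Else some `B i` is a pair and some `B j` is
single; `n ≥ 3` contradicts the second hypothesis (take `j, i` and a third index).  So `n = 2`, and
`c s_x + c' (s_y + s_z) = 0`, with `x` the root in `B j` and `B i = {y, z}`: at a `σ` where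
`s_y = - s_z` (`σ = 1`, or if there `s_y = s_z` the flip of `z`) we get `c = 0`; at a `σ` where
`s_y = s_z` (in the same way) `c' = 0`. -/
def S_C34 : Prop :=
  ∀ (q : ℕ) (v : AbsoluteValue Qb ℝ) (S : Set ℤ[X]), IsPrimePow q → Ab q v → S ⊆ FL q →
    (∀ h ∈ S, ¬ (q.minFac : ℤ) ∣ h.coeff 0) →
    (∀ (h : Fin 4 → ℤ[X]) (a : Fin 4 → Qb), (∀ i, h i ∈ S ∧ a i ∈ Om q (h i)) →
      (∀ i j, ℚ⟮a i⟯ = ℚ⟮a j⟯) → ∃ i j, i ≠ j ∧ GIso q (h i) (h j)) →
    (∀ (h : Fin 3 → ℤ[X]) (B : Fin 3 → Finset Qb), (∀ i, h i ∈ S ∧ RS q (h i) (B i)) →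
      (B 0).card = 1 → (B 1).card = 2 → (∀ i j, Fd (B i) = Fd (B j)) →
      ∃ i j, i ≠ j ∧ GIso q (h i) (h j)) →
    Cr q v S

/-- CRC.  The criterion of TJ3 implies the new one for full ordinary `S`.  Uses `S_SLP`, `S_GIS4`;
take `S_IND4` of TJ3 as a hypothesis.
PROOF.  `P` the prime ideal of `v` (`S_SLP`).  A dependent family gives integers `c i`, not all
zero, with `∑ c i slp (B i) = 0`, i.e. `∑ i, ∑ a ∈ A i, m i a sgn P a σ = 0` with
`A i = Om q (h i)`, `m i a = c i` for `a ∈ B i`, else `0`.  `S_IND4`: for `b ∈ B i` is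
`0 = m i (q / b) = m i b = c i`; `B i` is not empty, so all `c i = 0`, contradiction. -/
def S_CRC : Prop :=
  ∀ (q : ℕ) (v : AbsoluteValue Qb ℝ) (S : Set ℤ[X]), IsPrimePow q → Ab q v → S ⊆ FO q →
    (∀ P : Ideal Zb, P.IsPrime → ((q.minFac : ℕ) : Zb) ∈ P → Crit q P S) → Cr q v S

end

end Pool.Agent.TJ4
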